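import Pool.Agent.H97.ZL.Pack

/-!
# Explicit bounds (helper97)
-/

set_option autoImplicit false

namespace Pool.Agent.H97.ZL

open MeasureTheory Metric Filter Module Finset

/-- elementary lower bound for the Gamma function at half integers -/
theorem gamma_half_lower (n : ℕ) :
    (√((n : ℝ) / (2 * Real.exp 1))) ^ n ≤ Real.Gamma ((n : ℝ) / 2 + 1) := by
  induction n using Nat.twoStepInduction with
  | zero => simp
  | one =>
    have h1 : Real.Gamma (((1 : ℕ) : ℝ) / 2 + 1) = √Real.pi / 2 := by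
      rw [Nat.cast_one, Real.Gamma_add_one (by norm_num), Real.Gamma_one_half_eq]
      ring
    rw [h1, pow_one]
    have h2 : 1 ≤ √Real.pi := by
      rw [Real.le_sqrt' (by norm_num)]
      linarith [Real.pi_gt_three]
    have h3 : √(((1 : ℕ) : ℝ) / (2 * Real.exp 1)) ≤ 1 / 2 := by
      rw [Real.sqrt_le_left (by norm_num)]
      have := Real.exp_one_gt_d9
      rw [Nat.cast_one, div_le_iff₀ (by positivity)]
      nlinarith
    linarith
  | more n ih _ =>
    have he : 0 < Real.exp 1 := Real.exp_pos 1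
    have hG : Real.Gamma (((n + 2 : ℕ) : ℝ) / 2 + 1)
        = ((n : ℝ) / 2 + 1) * Real.Gamma ((n : ℝ) / 2 + 1) := by
      have : (((n + 2 : ℕ) : ℝ) / 2 + 1) = ((n : ℝ) / 2 + 1) + 1 := by push_cast; ring
      rw [this, Real.Gamma_add_one (by positivity)]
    rw [hG, pow_add, Real.sq_sqrt (by positivity)]
    have key : √(((n + 2 : ℕ) : ℝ) / (2 * Real.exp 1)) ^ n
        ≤ √((n : ℝ) / (2 * Real.exp 1)) ^ n * Real.exp 1 := by
      rcases Nat.eq_zero_or_pos n with h0 | hn
      · subst h0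
        simp
      · have hn' : (0 : ℝ) < n := by exact_mod_cast hn
        have h1 : √(((n + 2 : ℕ) : ℝ) / (2 * Real.exp 1))
            ≤ √((n : ℝ) / (2 * Real.exp 1)) * Real.exp (1 / n) := by
          rw [Real.sqrt_le_left (by positivity), mul_pow, Real.sq_sqrt (by positivity),
            ← Real.exp_nat_mul]
          have h2 : 2 / (n : ℝ) + 1 ≤ Real.exp (2 / n) := Real.add_one_le_exp _
          have e : (((2 : ℕ) : ℝ) * (1 / n)) = 2 / (n : ℝ) := by push_cast; ring
          rw [e]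
          calc (((n + 2 : ℕ) : ℝ) / (2 * Real.exp 1))
              = (n : ℝ) / (2 * Real.exp 1) * (2 / n + 1) := by push_cast; field_simp; ring
            _ ≤ _ := mul_le_mul_of_nonneg_left h2 (by positivity)
        have h3 := pow_le_pow_left₀ (by positivity) h1 n
        rw [mul_pow, ← Real.exp_nat_mul] at h3
        rwa [show (n : ℝ) * (1 / n) = 1 by field_simp] at h3
    calc √(((n + 2 : ℕ) : ℝ) / (2 * Real.exp 1)) ^ n * (((n + 2 : ℕ) : ℝ) / (2 * Real.exp 1))
        ≤ √((n : ℝ) / (2 * Real.exp 1)) ^ n * Real.exp 1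
          * (((n + 2 : ℕ) : ℝ) / (2 * Real.exp 1)) :=
          mul_le_mul_of_nonneg_right key (by positivity)
      _ = ((n : ℝ) / 2 + 1) * √((n : ℝ) / (2 * Real.exp 1)) ^ n := by
          push_cast
          field_simp
      _ ≤ _ := mul_le_mul_of_nonneg_left ih (by positivity)

lemma V_le {n : ℕ} (hn : 0 < n) : V n ≤ √(2 * Real.pi * Real.exp 1 / n) ^ n := by
  have hn' : (0 : ℝ) < n := by exact_mod_cast hn
  have : Nonempty (Fin n) := ⟨⟨0, hn⟩⟩
  have hG : 0 < Real.Gamma ((n : ℝ) / 2 + 1) := Real.Gamma_pos_of_pos (by positivity)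
  have h1 : V n = √Real.pi ^ n / Real.Gamma ((n : ℝ) / 2 + 1) := by
    rw [V, measureReal_def, EuclideanSpace.volume_ball, Fintype.card_fin]
    simp only [ENNReal.ofReal_one, one_pow, one_mul]
    rw [ENNReal.toReal_ofReal (by positivity)]
  rw [h1, div_le_iff₀ hG]
  have h2 : √Real.pi = √(2 * Real.pi * Real.exp 1 / n) * √((n : ℝ) / (2 * Real.exp 1)) := by
    rw [← Real.sqrt_mul (by positivity)]
    congr 1
    field_simp
  calc √Real.pi ^ n = √(2 * Real.pi * Real.exp 1 / n) ^ n * √((n : ℝ) / (2 * Real.exp 1)) ^ n := by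
        rw [← mul_pow, ← h2]
    _ ≤ _ := mul_le_mul_of_nonneg_left (gamma_half_lower n) (by positivity)

/-- `(n!)^{1/4} V_n / 2^n ≤ (√(π e / 2) / n^{1/4})^n` -/
lemma const_le {n : ℕ} (hn : 0 < n) : √(√(n.factorial : ℝ)) * V n / 2 ^ n ≤
    (√(Real.pi * Real.exp 1 / 2) / (n : ℝ) ^ (1 / 4 : ℝ)) ^ n := by
  have hn' : (0 : ℝ) < n := by exact_mod_cast hn
  have h1 : √(√(n.factorial : ℝ)) ≤ √(√(n : ℝ)) ^ n := by
    have h2 : (n.factorial : ℝ) ≤ (n : ℝ) ^ n := by exact_mod_cast n.factorial_le_pow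
    calc √(√(n.factorial : ℝ)) ≤ √(√((n : ℝ) ^ n)) := Real.sqrt_le_sqrt (Real.sqrt_le_sqrt h2)
      _ = √(√(n : ℝ)) ^ n := by
          rw [Real.sqrt_eq_rpow, Real.sqrt_eq_rpow, Real.sqrt_eq_rpow, Real.sqrt_eq_rpow,
            ← Real.rpow_natCast, ← Real.rpow_natCast, ← Real.rpow_mul hn'.le, ← Real.rpow_mul hn'.le,
            ← Real.rpow_mul hn'.le, ← Real.rpow_mul hn'.le]
          congr 1
          ring
  have h3 : √(√(n : ℝ)) = (n : ℝ) ^ (1 / 4 : ℝ) := by
    rw [Real.sqrt_eq_rpow, Real.sqrt_eq_rpow, ← Real.rpow_mul hn'.le]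
    norm_num
  set q : ℝ := (n : ℝ) ^ (1 / 4 : ℝ) with hq
  have hq0 : 0 < q := Real.rpow_pos_of_pos hn' _
  have hq2 : √(n : ℝ) = q * q := by
    rw [hq, ← Real.rpow_add hn', Real.sqrt_eq_rpow]
    norm_num
  rw [h3] at h1
  have h4 : √(2 * Real.pi * Real.exp 1 / n) = 2 * √(Real.pi * Real.exp 1 / 2) / (q * q) := by
    have h5 : 2 * Real.pi * Real.exp 1 / n = 2 ^ 2 * (Real.pi * Real.exp 1 / 2) / n := by ring
    rw [h5, Real.sqrt_div (by positivity), Real.sqrt_mul (by positivity), Real.sqrt_sq (by norm_num),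
      hq2]
  calc √(√(n.factorial : ℝ)) * V n / 2 ^ n
      ≤ q ^ n * √(2 * Real.pi * Real.exp 1 / n) ^ n / 2 ^ n := by
        have := V_le hn
        have := V_pos n
        gcongr
    _ = (q * √(2 * Real.pi * Real.exp 1 / n) / 2) ^ n := by rw [div_pow, mul_pow]
    _ = _ := by
        rw [h4]
        congr 1
        field_simp

end Pool.Agent.H97.ZL
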