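import Pool.Agent.H97.ZL.Vertex

/-!
# Quadratic forms `∑ w_e a_e²` with integer forms `a_e` whose maximal minors are at most `D` (helper97)
-/

set_option autoImplicit false

namespace Pool.Agent.H97.ZL

open Finset Matrix

variable {n : ℕ} {ι : Type} [Fintype ι]

/-- `Q(x) = ∑ w_e a_e(x)²` -/
def Q (w : ι → ℝ) (a : ι → Fin n → ℤ) (x : Fin n → ℝ) : ℝ := ∑ e, w e * ev (a e) x ^ 2

/-- the matrix of `Q` -/
def G (w : ι → ℝ) (a : ι → Fin n → ℤ) : Matrix (Fin n) (Fin n) ℝ :=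
  Matrix.of fun i j => ∑ e, w e * (a e i : ℝ) * (a e j : ℝ)

/-- all maximal minors are at most `D` in absolute value -/
def MinorsLE (a : ι → Fin n → ℤ) (D : ℝ) : Prop :=
  ∀ f : Fin n → ι, |(((Matrix.of fun i => a (f i)).det : ℤ) : ℝ)| ≤ D

/-- an integer vector as a real vector -/
def toR (z : Fin n → ℤ) : Fin n → ℝ := fun i => (z i : ℝ)

lemma Q_nonneg {w : ι → ℝ} (hw : ∀ e, 0 ≤ w e) (a : ι → Fin n → ℤ) (x : Fin n → ℝ) :
    0 ≤ Q w a x := sum_nonneg fun e _ => mul_nonneg (hw e) (sq_nonneg _)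

lemma Q_smul (w : ι → ℝ) (a : ι → Fin n → ℤ) (c : ℝ) (x : Fin n → ℝ) :
    Q w a (c • x) = c ^ 2 * Q w a x := by
  simp only [Q, ev_smul, mul_sum]
  exact sum_congr rfl fun e _ => by ring

lemma span_of_pos {w : ι → ℝ} {a : ι → Fin n → ℤ} (hpos : ∀ x : Fin n → ℝ, x ≠ 0 → 0 < Q w a x)
    (x : Fin n → ℝ) (hx : ∀ e, ev (a e) x = 0) : x = 0 := by
  by_contra h
  have := hpos x h
  simp only [Q, hx] at this
  simp at this

omit [Fintype ι] in
/-- a point with integral values of `n` independent forms is rational with bounded denominator -/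
lemma integral_multiple (a : ι → Fin n → ℤ) (y : Fin n → ℝ) (f : Fin n → ι)
    (hk : ∀ i, ∃ k : ℤ, ev (a (f i)) y = k) :
    ∃ z : Fin n → ℤ, toR z = (((Matrix.of fun i => a (f i)).det : ℤ) : ℝ) • y := by
  choose k hk using hk
  set B : Matrix (Fin n) (Fin n) ℤ := Matrix.of fun i => a (f i) with hB
  refine ⟨B.adjugate *ᵥ k, ?_⟩
  have h1 : (B.map (Int.cast : ℤ → ℝ)) *ᵥ y = toR k := by
    ext i
    simp only [mulVec, dotProduct, Matrix.map_apply, hB, Matrix.of_apply, toR]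
    rw [← hk i]
    rfl
  have h2 : (B.map (Int.cast : ℤ → ℝ)).adjugate *ᵥ ((B.map (Int.cast : ℤ → ℝ)) *ᵥ y) =
      ((B.det : ℤ) : ℝ) • y := by
    rw [mulVec_mulVec, adjugate_mul, smul_mulVec, one_mulVec]
    congr 1
    exact ((Int.castRingHom ℝ).map_det B).symm
  rw [← h2, h1]
  have h3 : (B.map (Int.cast : ℤ → ℝ)).adjugate = B.adjugate.map (Int.cast : ℤ → ℝ) :=
    ((Int.castRingHom ℝ).map_adjugate B).symm
  rw [h3]
  ext i
  simp only [mulVec, dotProduct, toR, Matrix.map_apply, Int.cast_sum, Int.cast_mul]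

/-- the `ℓ¹`-norm of a vector is at least `m / D²` times its largest coordinate -/
theorem l1_ge (a : ι → Fin n → ℤ) (w : ι → ℝ) (hw : ∀ e, 0 ≤ w e) (D m : ℝ) (hD : MinorsLE a D)
    (hD0 : 0 < D) (hm : 0 ≤ m) (hpos : ∀ x : Fin n → ℝ, x ≠ 0 → 0 < Q w a x)
    (hmin : ∀ z : Fin n → ℤ, z ≠ 0 → m ≤ Q w a (toR z)) (x : Fin n → ℝ) (e0 : ι) :
    m / D ^ 2 * |ev (a e0) x| ≤ ∑ e, w e * |ev (a e) x| := by
  classical
  obtain ⟨e1, -, hmax⟩ := Finset.exists_max_image univ (fun e => |ev (a e) x|) ⟨e0, mem_univ _⟩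
  have hmd : 0 ≤ m / D ^ 2 := by positivity
  refine (mul_le_mul_of_nonneg_left (hmax e0 (mem_univ _)) hmd).trans ?_
  rcases (abs_nonneg (ev (a e1) x)).eq_or_lt with h0 | hM
  · rw [← h0, mul_zero]
    exact sum_nonneg fun e _ => mul_nonneg (hw e) (abs_nonneg _)
  set M := |ev (a e1) x| with hMdef
  set x' : Fin n → ℝ := M⁻¹ • x with hx'
  have hev : ∀ e, ev (a e) x' = M⁻¹ * ev (a e) x := fun e => ev_smul _ _ _
  have habs : ∀ e, |ev (a e) x'| ≤ 1 := by
    intro e
    rw [hev, abs_mul, abs_of_pos (inv_pos.2 hM), inv_mul_le_iff₀ hM, mul_one]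
    exact hmax e (mem_univ _)
  have habs1 : |ev (a e1) x'| = 1 := by
    rw [hev, abs_mul, abs_of_pos (inv_pos.2 hM), ← hMdef, inv_mul_cancel₀ hM.ne']
  set s : ι → ℝ := fun e => if 0 ≤ ev (a e) x' then 1 else -1 with hs
  let l : (Fin n → ℝ) →ₗ[ℝ] ℝ :=
    { toFun := fun z => ∑ e, w e * (s e * ev (a e) z)
      map_add' := fun u v => by
        simp only [ev_add, mul_add, sum_add_distrib]
      map_smul' := fun c u => by
        simp only [ev_smul, RingHom.id_apply, smul_eq_mul, mul_sum]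
        exact sum_congr rfl fun e _ => by ring }
  have hl : ∀ z, l z = ∑ e, w e * (s e * ev (a e) z) := fun z => rfl
  obtain ⟨y, hy, hly, f, hf, hk⟩ := exists_vertex a (span_of_pos hpos)
    (fun e => ⌊ev (a e) x'⌋) (fun e => ⌈ev (a e) x'⌉) l x' fun e => ⟨Int.floor_le _, Int.le_ceil _⟩
  have hsy : ∀ e, s e * ev (a e) y = |ev (a e) y| := by
    intro e
    by_cases h : 0 ≤ ev (a e) x'
    · have h1 : (0 : ℝ) ≤ ev (a e) y := by
        have : (0 : ℝ) ≤ ⌊ev (a e) x'⌋ := by exact_mod_cast Int.floor_nonneg.2 h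
        exact this.trans (hy e).1
      simp only [hs, if_pos h, one_mul, abs_of_nonneg h1]
    · have h1 : ev (a e) y ≤ 0 := by
        have h2 : ⌈ev (a e) x'⌉ ≤ 0 := Int.ceil_le.2 (by push_cast; exact (not_le.1 h).le)
        have : ((⌈ev (a e) x'⌉ : ℤ) : ℝ) ≤ 0 := by exact_mod_cast h2
        exact (hy e).2.trans this
      simp only [hs, if_neg h, abs_of_nonpos h1]
      ring
  have hsx : ∀ e, s e * ev (a e) x' = |ev (a e) x'| := by
    intro e
    by_cases h : 0 ≤ ev (a e) x'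
    · simp only [hs, if_pos h, one_mul, abs_of_nonneg h]
    · simp only [hs, if_neg h, abs_of_neg (not_le.1 h)]
      ring
  have hy1 : ∀ e, |ev (a e) y| ≤ 1 := by
    intro e
    have h1 := abs_le.1 (habs e)
    rw [abs_le]
    constructor
    · have h2 : (-1 : ℤ) ≤ ⌊ev (a e) x'⌋ := Int.le_floor.2 (by push_cast; exact h1.1)
      have h3 : (-1 : ℝ) ≤ ⌊ev (a e) x'⌋ := by exact_mod_cast h2
      exact h3.trans (hy e).1
    · have h2 : ⌈ev (a e) x'⌉ ≤ 1 := Int.ceil_le.2 (by push_cast; exact h1.2)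
      have h3 : ((⌈ev (a e) x'⌉ : ℤ) : ℝ) ≤ 1 := by exact_mod_cast h2
      exact (hy e).2.trans h3
  have hyne : y ≠ 0 := by
    intro h0
    have hz : ev (a e1) y = 0 := by
      rw [h0, ev]
      exact sum_eq_zero fun i _ => by rw [Pi.zero_apply, mul_zero]
    rcases abs_eq (by norm_num : (0 : ℝ) ≤ 1) |>.1 habs1 with h | h
    · have h2 : ⌊ev (a e1) x'⌋ = 1 := by rw [h, Int.floor_one]
      have h1 := (hy e1).1
      change ((⌊ev (a e1) x'⌋ : ℤ) : ℝ) ≤ _ at h1
      rw [h2, hz] at h1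
      norm_num at h1
    · have h2 : ⌈ev (a e1) x'⌉ = -1 := by
        rw [h]
        exact_mod_cast Int.ceil_intCast (R := ℝ) (-1)
      have h1 := (hy e1).2
      change _ ≤ ((⌈ev (a e1) x'⌉ : ℤ) : ℝ) at h1
      rw [h2, hz] at h1
      norm_num at h1
  obtain ⟨z, hz⟩ := integral_multiple a y f hk
  set d : ℝ := (((Matrix.of fun i => a (f i)).det : ℤ) : ℝ) with hd
  have hd0 : d ≠ 0 := by
    rw [hd]; exact_mod_cast hf
  have hzne : z ≠ 0 := by
    intro h0
    rw [h0] at hz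
    have h1 : (d • y : Fin n → ℝ) = 0 := by
      rw [← hz]; ext i; simp [toR]
    rcases smul_eq_zero.1 h1 with h | h
    · exact hd0 h
    · exact hyne h
  have h1 := hmin z hzne
  rw [hz, Q_smul] at h1
  have hQy : 0 ≤ Q w a y := Q_nonneg hw a y
  have h2 : d ^ 2 ≤ D ^ 2 := by
    have := hD f
    rw [← hd] at this
    calc d ^ 2 = |d| ^ 2 := (sq_abs d).symm
      _ ≤ D ^ 2 := pow_le_pow_left₀ (abs_nonneg _) this 2
  have h3 : m ≤ D ^ 2 * Q w a y := h1.trans (mul_le_mul_of_nonneg_right h2 hQy)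
  have h4 : Q w a y ≤ l y := by
    rw [hl, Q]
    apply sum_le_sum
    intro e _
    rw [hsy]
    apply mul_le_mul_of_nonneg_left _ (hw e)
    rw [← sq_abs]
    have := hy1 e
    have h0 := abs_nonneg (ev (a e) y)
    nlinarith
  have h5 : l x' = M⁻¹ * ∑ e, w e * |ev (a e) x| := by
    rw [hl, mul_sum]
    apply sum_congr rfl
    intro e _
    rw [hsx, hev, abs_mul, abs_of_pos (inv_pos.2 hM)]
    ring
  have h6 : m ≤ D ^ 2 * (M⁻¹ * ∑ e, w e * |ev (a e) x|) := by
    rw [← h5]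
    exact h3.trans (mul_le_mul_of_nonneg_left (h4.trans hly) (by positivity))
  rw [div_mul_eq_mul_div, div_le_iff₀ (by positivity)]
  calc m * M ≤ D ^ 2 * (M⁻¹ * ∑ e, w e * |ev (a e) x|) * M :=
        mul_le_mul_of_nonneg_right h6 hM.le
    _ = (∑ e, w e * |ev (a e) x|) * D ^ 2 := by field_simp

lemma G_symm (w : ι → ℝ) (a : ι → Fin n → ℤ) : (G w a)ᵀ = G w a := by
  ext i j
  simp only [G, transpose_apply, of_apply]
  exact sum_congr rfl fun e _ => by ring

lemma Q_eq (w : ι → ℝ) (a : ι → Fin n → ℤ) (x : Fin n → ℝ) :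
    Q w a x = x ⬝ᵥ (G w a *ᵥ x) := by
  simp only [Q, ev, G, dotProduct, mulVec, of_apply, sq, mul_sum, sum_mul]
  rw [sum_comm]
  apply sum_congr rfl
  intro i _
  rw [sum_comm]
  apply sum_congr rfl
  intro j _
  exact sum_congr rfl fun e _ => by ring

lemma posDef {w : ι → ℝ} {a : ι → Fin n → ℤ} (hpos : ∀ x : Fin n → ℝ, x ≠ 0 → 0 < Q w a x) :
    (G w a).PosDef := by
  refine Matrix.PosDef.of_dotProduct_mulVec_pos ?_ ?_
  · rw [Matrix.IsHermitian, conjTranspose_eq_transpose_of_trivial]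
    exact G_symm w a
  · intro x hx
    rw [star_trivial, ← Q_eq]
    exact hpos x hx

lemma det_pos {w : ι → ℝ} {a : ι → Fin n → ℤ} (hpos : ∀ x : Fin n → ℝ, x ≠ 0 → 0 < Q w a x) :
    0 < (G w a).det := (posDef hpos).det_pos

/-- `p_e = a_eᵀ adj(G) a_e` -/
noncomputable def p (w : ι → ℝ) (a : ι → Fin n → ℤ) (e : ι) : ℝ :=
  toR (a e) ⬝ᵥ ((G w a).adjugate *ᵥ toR (a e))

lemma ev_eq (b : Fin n → ℤ) (x : Fin n → ℝ) : ev b x = toR b ⬝ᵥ x := rfl

/-- Euler's identity `n det G = ∑ w_e p_e` -/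
lemma euler (w : ι → ℝ) (a : ι → Fin n → ℤ) : ∑ e, w e * p w a e = n * (G w a).det := by
  have h1 : ((G w a).adjugate * G w a).trace = n * (G w a).det := by
    rw [adjugate_mul, trace_smul, trace_one, smul_eq_mul, Fintype.card_fin, mul_comm]
  rw [← h1]
  simp only [Matrix.trace, diag_apply, mul_apply, p, dotProduct, mulVec]
  simp only [G, of_apply, mul_sum, toR]
  rw [sum_comm]
  apply sum_congr rfl
  intro i _
  rw [sum_comm]
  apply sum_congr rfl
  intro j _
  apply sum_congr rfl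
  intro e _
  ring

lemma p_zero (w : ι → ℝ) (a : ι → Fin n → ℤ) (e : ι) (he : a e = 0) : p w a e = 0 := by
  have : toR (a e) = 0 := by rw [he]; ext i; simp [toR]
  rw [p, this, zero_dotProduct]

/-- the total weight of the nonzero forms -/
noncomputable def W (w : ι → ℝ) (a : ι → Fin n → ℤ) : ℝ :=
  open Classical in ∑ e with a e ≠ 0, w e

/-- `(m / D²)² n ≤ W²` -/
theorem W_ge (a : ι → Fin n → ℤ) (w : ι → ℝ) (hw : ∀ e, 0 ≤ w e) (D m : ℝ) (hD : MinorsLE a D)
    (hD0 : 0 < D) (hm : 0 ≤ m) (hpos : ∀ x : Fin n → ℝ, x ≠ 0 → 0 < Q w a x)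
    (hmin : ∀ z : Fin n → ℤ, z ≠ 0 → m ≤ Q w a (toR z)) :
    (m / D ^ 2) ^ 2 * n ≤ W w a ^ 2 := by
  classical
  have hdet := det_pos hpos
  set g := G w a with hg
  have hW0 : 0 ≤ W w a := sum_nonneg fun e _ => hw e
  have hQadj : ∀ e, Q w a (g.adjugate *ᵥ toR (a e)) = g.det * p w a e := by
    intro e
    rw [Q_eq, ← hg, mulVec_mulVec, mul_adjugate, smul_mulVec, one_mulVec, dotProduct_smul,
      smul_eq_mul, p, ← hg, dotProduct_comm]
  have hevp : ∀ e, ev (a e) (g.adjugate *ᵥ toR (a e)) = p w a e := fun e => rfl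
  have hp0 : ∀ e, 0 ≤ p w a e := by
    intro e
    have h1 := Q_nonneg hw a (g.adjugate *ᵥ toR (a e))
    rw [hQadj] at h1
    exact (mul_nonneg_iff_of_pos_left hdet).1 h1
  have key : ∀ e, (m / D ^ 2) ^ 2 * p w a e ≤ W w a * g.det := by
    intro e
    rcases (hp0 e).eq_or_lt with h0 | hp
    · rw [← h0, mul_zero]; positivity
    set x := g.adjugate *ᵥ toR (a e) with hx
    have h1 := l1_ge a w hw D m hD hD0 hm hpos hmin x e
    rw [hevp, abs_of_nonneg (hp0 e)] at h1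
    have h2 : ∑ f, w f * |ev (a f) x| = ∑ f with a f ≠ 0, w f * |ev (a f) x| := by
      symm
      apply sum_subset (filter_subset _ _)
      intro f _ hf
      have hf' : a f = 0 := by simpa using hf
      have : ev (a f) x = 0 := by rw [hf']; simp [ev]
      rw [this, abs_zero, mul_zero]
    have h3 : (∑ f with a f ≠ 0, w f * |ev (a f) x|) ^ 2 ≤ W w a * Q w a x := by
      have hcs := Finset.sum_mul_sq_le_sq_mul_sq (univ.filter fun f => a f ≠ 0)
        (fun f => √(w f)) (fun f => √(w f) * |ev (a f) x|)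
      have e1 : ∀ f, √(w f) * (√(w f) * |ev (a f) x|) = w f * |ev (a f) x| := by
        intro f
        rw [← mul_assoc, Real.mul_self_sqrt (hw f)]
      have e2 : ∀ f, √(w f) ^ 2 = w f := fun f => Real.sq_sqrt (hw f)
      have e3 : ∀ f, (√(w f) * |ev (a f) x|) ^ 2 = w f * ev (a f) x ^ 2 := by
        intro f
        rw [mul_pow, e2, sq_abs]
      simp only [e1, e2, e3] at hcs
      refine hcs.trans (mul_le_mul_of_nonneg_left ?_ hW0)
      rw [Q]
      exact sum_le_sum_of_subset_of_nonneg (filter_subset _ _)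
        fun f _ _ => mul_nonneg (hw f) (sq_nonneg _)
    rw [← h2, hx, hQadj] at h3
    have h4 : (m / D ^ 2 * p w a e) ^ 2 ≤ W w a * (g.det * p w a e) :=
      (pow_le_pow_left₀ (by have := hp0 e; positivity) h1 2).trans h3
    have h5 : (m / D ^ 2) ^ 2 * p w a e * p w a e ≤ W w a * g.det * p w a e := by nlinarith
    exact le_of_mul_le_mul_right h5 hp
  have h6 : (m / D ^ 2) ^ 2 * (n * g.det) ≤ W w a ^ 2 * g.det := by
    rw [hg, ← euler w a, mul_sum]
    have h7 : ∑ e, (m / D ^ 2) ^ 2 * (w e * p w a e) =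
        ∑ e with a e ≠ 0, (m / D ^ 2) ^ 2 * (w e * p w a e) := by
      symm
      apply sum_subset (filter_subset _ _)
      intro f _ hf
      have hf' : a f = 0 := by simpa using hf
      rw [p_zero w a f hf', mul_zero, mul_zero]
    rw [h7]
    calc ∑ e with a e ≠ 0, (m / D ^ 2) ^ 2 * (w e * p w a e)
        ≤ ∑ e with a e ≠ 0, w e * (W w a * g.det) := by
          apply sum_le_sum
          intro e _
          have := mul_le_mul_of_nonneg_left (key e) (hw e)
          linarith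
      _ = W w a ^ 2 * g.det := by
          rw [← sum_mul]
          have : ∑ e with a e ≠ 0, w e = W w a := rfl
          rw [this]; ring
  have h8 : (m / D ^ 2) ^ 2 * n * g.det ≤ W w a ^ 2 * g.det := by linarith
  exact le_of_mul_le_mul_right h8 hdet

end Pool.Agent.H97.ZL
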