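import Pool.Agent.H97.ZL.Ind
import Pool.Graph.R_seed8.H818R2.Defs

/-!
# Density of finite unions of translates of lattices (helper97)
-/

set_option autoImplicit false

namespace Pool.Agent.H97.ZL

open MeasureTheory Metric Filter Module Finset
open Pool.Agent.H818R2 (IsPacking body upperDensity)

/-- `ℝ^n` -/
abbrev E (n : ℕ) : Type := EuclideanSpace ℝ (Fin n)

variable {n : ℕ}

/-- the lattice spanned by the basis `b` -/
abbrev lat (b : Basis (Fin n) ℝ (E n)) : Submodule ℤ (E n) := Submodule.span ℤ (Set.range b)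

/-- volume of the fundamental parallelepiped of `b` -/
noncomputable def covol (b : Basis (Fin n) ℝ (E n)) : ℝ :=
  volume.real (ZSpan.fundamentalDomain b)

/-- volume of the unit ball of `ℝ^n` -/
noncomputable def V (n : ℕ) : ℝ := volume.real (ball (0 : E n) 1)

lemma V_pos (n : ℕ) : 0 < V n := by
  unfold V
  apply ENNReal.toReal_pos
  · exact (Metric.measure_ball_pos volume (0 : E n) one_pos).ne'
  · exact measure_ball_lt_top.ne

lemma real_ball (x : E n) (r : ℝ) (hr : 0 < r) : volume.real (ball x r) = r ^ n * V n := by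
  unfold V
  rw [measureReal_def, Measure.addHaar_ball_of_pos _ _ hr, ENNReal.toReal_mul,
    ENNReal.toReal_ofReal (by positivity), measureReal_def]
  simp

lemma covol_pos (b : Basis (Fin n) ℝ (E n)) : 0 < covol b := by
  unfold covol
  apply ENNReal.toReal_pos
  · exact ZSpan.measure_fundamentalDomain_ne_zero b
  · exact (ZSpan.fundamentalDomain_isBounded b).measure_lt_top.ne

/-- counting lattice points in balls -/
lemma count (b : Basis (Fin n) ℝ (E n)) : ∃ d : ℝ, 0 ≤ d ∧ ∀ (S : Finset (E n)) (R : ℝ), 0 < R →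
    (∀ v ∈ S, v ∈ lat b ∧ ‖v‖ < R) → (S.card : ℝ) * covol b ≤ (R + d) ^ n * V n := by
  obtain ⟨d, hd0, hd⟩ := (ZSpan.fundamentalDomain_isBounded b).subset_closedBall_lt 0 0
  refine ⟨d, hd0.le, fun S R hR hS => ?_⟩
  rw [← real_ball 0 (R + d) (by positivity)]
  set T : E n → Set (E n) := fun v => (fun x => x + -v) ⁻¹' ZSpan.fundamentalDomain b with hT
  have hmeas : ∀ v ∈ S, MeasurableSet (T v) := fun v _ =>
    (measurable_id.add_const _) (ZSpan.fundamentalDomain_measurableSet b)
  have hvol : ∀ v, volume (T v) = volume (ZSpan.fundamentalDomain b) := fun v =>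
    measure_preimage_add_right volume (-v) _
  have hdisj : (S : Set (E n)).PairwiseDisjoint T := by
    intro v hv v' hv' hne
    rw [Function.onFun, Set.disjoint_left]
    intro x hx hx'
    apply hne
    obtain ⟨y, -, hy⟩ := ZSpan.exist_unique_vadd_mem_fundamentalDomain b x
    have h1 := hy ⟨-v, (lat b).neg_mem (hS v hv).1⟩ (by
      change -v + x ∈ _
      rw [add_comm]; exact hx)
    have h2 := hy ⟨-v', (lat b).neg_mem (hS v' hv').1⟩ (by
      change -v' + x ∈ _
      rw [add_comm]; exact hx')
    have h3 : (-v : E n) = -v' := congrArg Subtype.val (h1.trans h2.symm)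
    exact neg_injective h3
  have hsub : (⋃ v ∈ S, T v) ⊆ ball (0 : E n) (R + d) := by
    intro x hx
    simp only [Set.mem_iUnion] at hx
    obtain ⟨v, hv, hxv⟩ := hx
    have h1 : ‖x + -v‖ ≤ d := mem_closedBall_zero_iff.1 (hd hxv)
    have h2 := (hS v hv).2
    rw [mem_ball_zero_iff]
    calc ‖x‖ = ‖(x + -v) + v‖ := by congr 1; abel
      _ ≤ ‖x + -v‖ + ‖v‖ := norm_add_le _ _
      _ < R + d := by linarith
  have h1 : volume (⋃ v ∈ S, T v) = S.card * volume (ZSpan.fundamentalDomain b) := by
    rw [measure_biUnion_finset hdisj hmeas, sum_congr rfl fun v _ => hvol v, sum_const,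
      nsmul_eq_mul]
  have h2 := measureReal_mono hsub (μ := volume) measure_ball_lt_top.ne
  rw [measureReal_def, h1, ENNReal.toReal_mul, ENNReal.toReal_natCast] at h2
  exact h2

/-- density of a finite union of translates of lattices -/
theorem density_le {K : ℕ} (b : Fin K → Basis (Fin n) ℝ (E n)) (t : Fin K → E n) (r : ℝ)
    (hr : 0 < r) : upperDensity (⋃ k, (fun v => t k + v) '' (lat (b k) : Set (E n))) r ≤
      ∑ k, r ^ n * V n / covol (b k) := by
  classical
  choose d hd0 hd using fun k => count (b k)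
  set c : Fin K → ℝ := fun k => r + ‖t k‖ + d k with hc
  have hc0 : ∀ k, 0 < c k := fun k => by
    have := norm_nonneg (t k); have := hd0 k
    simp only [hc]; linarith
  set X : Set (E n) := ⋃ k, (fun v => t k + v) '' (lat (b k) : Set (E n)) with hX
  have hbound : ∀ R : ℝ, 0 < R → volume.real (ball (0 : E n) R ∩ body X r) /
      volume.real (ball (0 : E n) R) ≤ ∑ k, r ^ n * V n / covol (b k) * ((R + c k) / R) ^ n := by
    intro R hR
    have hfin : ∀ k, (ball (0 : E n) (R + r + ‖t k‖) ∩ lat (b k)).Finite := fun k =>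
      ZSpan.setFinite_inter (b k) isBounded_ball
    set S : Fin K → Finset (E n) := fun k => (hfin k).toFinset with hS
    have hsub : ball (0 : E n) R ∩ body X r ⊆ ⋃ k ∈ (univ : Finset (Fin K)), ⋃ v ∈ S k,
        ball (t k + v) r := by
      rintro x ⟨hxR, hx⟩
      simp only [body, Set.mem_iUnion, hX] at hx
      obtain ⟨y, ⟨k, v, hv, rfl⟩, hxy⟩ := hx
      simp only [Set.mem_iUnion]
      refine ⟨k, mem_univ _, v, ?_, hxy⟩
      rw [hS]
      simp only [Set.Finite.mem_toFinset]
      refine ⟨?_, hv⟩
      rw [mem_ball_zero_iff] at hxR ⊢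
      have h1 : ‖x - (t k + v)‖ < r := by rwa [mem_ball, dist_eq_norm] at hxy
      calc ‖v‖ = ‖x - (x - (t k + v)) - t k‖ := by congr 1; abel
        _ ≤ ‖x - (x - (t k + v))‖ + ‖t k‖ := norm_sub_le _ _
        _ ≤ ‖x‖ + ‖x - (t k + v)‖ + ‖t k‖ := by gcongr; exact norm_sub_le _ _
        _ < R + r + ‖t k‖ := by linarith
    have h1 : volume.real (ball (0 : E n) R ∩ body X r) ≤
        ∑ k, ((S k).card : ℝ) * (r ^ n * V n) := by
      have hne : volume (⋃ k ∈ (univ : Finset (Fin K)), ⋃ v ∈ S k, ball (t k + v) r) ≠ ⊤ := by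
        refine ne_of_lt (lt_of_le_of_lt (measure_biUnion_finset_le _ _) ?_)
        refine ENNReal.sum_lt_top.2 fun k _ => ?_
        refine lt_of_le_of_lt (measure_biUnion_finset_le _ _) ?_
        exact ENNReal.sum_lt_top.2 fun v _ => measure_ball_lt_top
      refine (measureReal_mono hsub hne).trans ?_
      refine (measureReal_biUnion_finset_le _ _).trans (sum_le_sum fun k _ => ?_)
      refine (measureReal_biUnion_finset_le _ _).trans ?_
      rw [sum_congr rfl fun v _ => real_ball (t k + v) r hr, sum_const, nsmul_eq_mul]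
    rw [real_ball 0 R hR, div_le_iff₀ (by have := V_pos n; positivity)]
    refine h1.trans ?_
    rw [sum_mul]
    apply sum_le_sum
    intro k _
    have h2 := hd k (S k) (R + r + ‖t k‖) (by positivity) (fun v hv => by
      rw [hS] at hv
      simp only [Set.Finite.mem_toFinset] at hv
      exact ⟨hv.2, mem_ball_zero_iff.1 hv.1⟩)
    have hcv := covol_pos (b k)
    have hV := V_pos n
    have h3 : ((S k).card : ℝ) ≤ (R + c k) ^ n * V n / covol (b k) := by
      rw [le_div_iff₀ hcv]
      calc ((S k).card : ℝ) * covol (b k) ≤ (R + r + ‖t k‖ + d k) ^ n * V n := h2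
        _ = (R + c k) ^ n * V n := by simp only [hc]; ring
    calc ((S k).card : ℝ) * (r ^ n * V n) ≤ (R + c k) ^ n * V n / covol (b k) * (r ^ n * V n) :=
          mul_le_mul_of_nonneg_right h3 (by positivity)
      _ = r ^ n * V n / covol (b k) * ((R + c k) / R) ^ n * (R ^ n * V n) := by
          rw [div_pow]
          field_simp
  have htend : Tendsto (fun R : ℝ => ∑ k, r ^ n * V n / covol (b k) * ((R + c k) / R) ^ n) atTop
      (nhds (∑ k, r ^ n * V n / covol (b k))) := by
    apply tendsto_finsetSum
    intro k _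
    have h1 : Tendsto (fun R : ℝ => (R + c k) / R) atTop (nhds 1) := by
      have h2 : Tendsto (fun R : ℝ => 1 + c k / R) atTop (nhds (1 + 0)) :=
        tendsto_const_nhds.add (tendsto_const_nhds.div_atTop tendsto_id)
      rw [add_zero] at h2
      refine h2.congr' ?_
      filter_upwards [eventually_gt_atTop 0] with R hR
      field_simp
    have h3 := (h1.pow n).const_mul (r ^ n * V n / covol (b k))
    rw [one_pow, mul_one] at h3
    exact h3
  unfold upperDensity
  rw [← htend.limsup_eq]
  refine limsup_le_limsup ?_ ?_ htend.isBoundedUnder_le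
  · filter_upwards [eventually_gt_atTop 0] with R hR
    exact hbound R hR
  · exact isCoboundedUnder_le_of_le atTop (x := 0) fun R => div_nonneg measureReal_nonneg measureReal_nonneg

end Pool.Agent.H97.ZL
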