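import Pool.Agent.H97.ZL.Pack

/-!
# Every lattice has a `D`-modular form for some `D` (helper97)
-/

set_option autoImplicit false

namespace Pool.Agent.H97.ZL

open MeasureTheory Metric Filter Module Finset
open scoped RealInnerProductSpace Topology

variable {n : ℕ}

/-- squares for a diagonally dominant matrix -/
lemma dominant_form (H : Matrix (Fin n) (Fin n) ℝ) (hs : ∀ i j, H i j = H j i)
    (y : Fin n → ℝ) :
    ∑ i, ∑ j, H i j * (y i * y j) =
      ∑ i, ∑ j, (if i = j then 0 else |H i j| / 2) *
        (y i + (if 0 ≤ H i j then 1 else -1) * y j) ^ 2 +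
      ∑ i, (H i i - ∑ j, if i = j then 0 else |H i j|) * y i ^ 2 := by
  have h1 : ∀ i j, (if i = j then 0 else |H i j| / 2) *
        (y i + (if 0 ≤ H i j then 1 else -1) * y j) ^ 2 =
      (if i = j then 0 else |H i j|) / 2 * y i ^ 2 + (if i = j then 0 else |H i j|) / 2 * y j ^ 2 +
      (if i = j then 0 else H i j * (y i * y j)) := by
    intro i j
    by_cases hij : i = j
    · simp [hij]
    · simp only [if_neg hij]
      by_cases h : 0 ≤ H i j
      · rw [if_pos h, abs_of_nonneg h]; ring
      · rw [if_neg h, abs_of_neg (not_le.1 h)]; ring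
  simp only [h1, sum_add_distrib]
  have h2 : ∑ i, ∑ j, (if i = j then 0 else |H i j|) / 2 * y j ^ 2 =
      ∑ i, ∑ j, (if i = j then 0 else |H i j|) / 2 * y i ^ 2 := by
    rw [sum_comm]
    apply sum_congr rfl
    intro i _
    apply sum_congr rfl
    intro j _
    congr 2
    by_cases hij : i = j
    · simp [hij]
    · rw [if_neg hij, if_neg (Ne.symm hij), hs]
  rw [h2]
  have h3 : ∀ i, ∑ j, H i j * (y i * y j) = H i i * y i ^ 2 +
      ∑ j, (if i = j then 0 else H i j * (y i * y j)) := by
    intro i
    have h4 : ∀ j, H i j * (y i * y j) = (if i = j then H i i * y i ^ 2 else 0) +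
        (if i = j then 0 else H i j * (y i * y j)) := by
      intro j
      by_cases hij : i = j
      · subst hij
        rw [if_pos rfl, if_pos rfl]
        ring
      · simp [hij]
    rw [sum_congr rfl fun j _ => h4 j, sum_add_distrib]
    simp
  simp only [h3, sum_add_distrib, sub_mul, sum_sub_distrib, sum_mul]
  have h5 : ∑ i, ∑ j, (if i = j then 0 else |H i j|) * y i ^ 2 =
      2 * ∑ i, ∑ j, (if i = j then 0 else |H i j|) / 2 * y i ^ 2 := by
    rw [mul_sum]
    apply sum_congr rfl
    intro i _
    rw [mul_sum]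
    exact sum_congr rfl fun j _ => by ring
  rw [h5]
  ring

/-- every basis has a form with nonnegative weights -/
theorem exists_form (b : Basis (Fin n) ℝ (E n)) :
    ∃ (N : ℕ) (a : Fin N → Fin n → ℤ) (w : Fin N → ℝ), (∀ e, 0 ≤ w e) ∧ HasForm b a w := by
  classical
  set M : Matrix (Fin n) (Fin n) ℝ := Matrix.of fun i j => (b j) i with hM
  have hMdet : M.det ≠ 0 := by
    have h1 := (EuclideanSpace.basisFun (Fin n) ℝ).toBasis.isUnit_det b
    rw [Basis.det_apply] at h1
    have h2 : (EuclideanSpace.basisFun (Fin n) ℝ).toBasis.toMatrix b = M := by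
      ext i j
      simp [Basis.toMatrix_apply, hM]
    rw [h2] at h1
    exact h1.ne_zero
  -- integral approximations
  let P : ℕ → Matrix (Fin n) (Fin n) ℤ := fun k => Matrix.of fun i j => ⌊(k : ℝ) * M i j⌋
  let S : ℕ → Matrix (Fin n) (Fin n) ℝ := fun k => Matrix.of fun i j => ((P k i j : ℤ) : ℝ) / k
  have hS : Tendsto S atTop (𝓝 M) := by
    refine tendsto_pi_nhds.2 fun i => tendsto_pi_nhds.2 fun j => ?_
    have h1 : Tendsto (fun k : ℕ => ((⌊(k : ℝ) * M i j⌋ : ℤ) : ℝ) / k) atTop (𝓝 (M i j)) := by
      have h2 : Tendsto (fun k : ℕ => M i j - 1 / (k : ℝ)) atTop (𝓝 (M i j - 0)) :=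
        tendsto_const_nhds.sub tendsto_one_div_atTop_nhds_zero_nat
      rw [sub_zero] at h2
      refine tendsto_of_tendsto_of_tendsto_of_le_of_le' h2 tendsto_const_nhds ?_ ?_
      · filter_upwards [eventually_gt_atTop 0] with k hk
        have hk' : (0 : ℝ) < k := by exact_mod_cast hk
        rw [le_div_iff₀ hk', sub_mul, one_div, inv_mul_cancel₀ hk'.ne']
        have := Int.sub_one_lt_floor ((k : ℝ) * M i j)
        linarith
      · filter_upwards [eventually_gt_atTop 0] with k hk
        have hk' : (0 : ℝ) < k := by exact_mod_cast hk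
        rw [div_le_iff₀ hk', mul_comm (M i j)]
        exact Int.floor_le _
    exact h1
  have hdet : Tendsto (fun k => (S k).det) atTop (𝓝 M.det) :=
    (continuous_id.matrix_det.tendsto M).comp hS
  have hadj : Tendsto (fun k => (S k).adjugate) atTop (𝓝 M.adjugate) :=
    (continuous_id.matrix_adjugate.tendsto M).comp hS
  set R : ℕ → Matrix (Fin n) (Fin n) ℝ := fun k => ((S k).det)⁻¹ • (M * (S k).adjugate) with hR
  have hRlim : Tendsto R atTop (𝓝 1) := by
    have h1 : Tendsto (fun k => ((S k).det)⁻¹ • (M * (S k).adjugate)) atTop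
        (𝓝 ((M.det)⁻¹ • (M * M.adjugate))) :=
      (hdet.inv₀ hMdet).smul (tendsto_const_nhds.mul hadj)
    rwa [Matrix.mul_adjugate, smul_smul, inv_mul_cancel₀ hMdet, one_smul] at h1
  set H : ℕ → Matrix (Fin n) (Fin n) ℝ := fun k => (R k).transpose * R k with hH
  have hHlim : Tendsto H atTop (𝓝 1) := by
    have h1 : Tendsto (fun k => (R k).transpose * R k) atTop (𝓝 ((1 : Matrix (Fin n) (Fin n) ℝ).transpose * 1)) :=
      ((continuous_id.matrix_transpose.tendsto _).comp hRlim).mul hRlim
    rwa [Matrix.transpose_one, Matrix.mul_one] at h1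
  have hentry : ∀ i j, ∀ᶠ k in atTop, |H k i j - (1 : Matrix (Fin n) (Fin n) ℝ) i j| < 1 / (2 * (n + 1)) := by
    intro i j
    have h1 : Tendsto (fun k => H k i j) atTop (𝓝 ((1 : Matrix (Fin n) (Fin n) ℝ) i j)) :=
      ((continuous_apply_apply i j).tendsto _).comp hHlim
    have h2 := Metric.tendsto_nhds.1 h1 (1 / (2 * (n + 1))) (by positivity)
    exact h2
  have hall : ∀ᶠ k in atTop, ∀ i j, |H k i j - (1 : Matrix (Fin n) (Fin n) ℝ) i j| < 1 / (2 * (n + 1)) := by
    rw [eventually_all]
    intro i
    rw [eventually_all]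
    intro j
    exact hentry i j
  obtain ⟨k, hk, hk0, hkdet⟩ := (hall.and ((eventually_gt_atTop 0).and
    (hdet.eventually_ne hMdet))).exists
  have hk' : (0 : ℝ) < k := by exact_mod_cast hk0
  -- the identity
  have hMS : M = R k * S k := by
    simp only [hR]
    rw [Matrix.smul_mul, Matrix.mul_assoc, Matrix.adjugate_mul, Matrix.mul_smul, Matrix.mul_one,
      smul_smul, inv_mul_cancel₀ hkdet, one_smul]
  have hsymm : ∀ i j, H k i j = H k j i := by
    intro i j
    simp only [hH, Matrix.mul_apply, Matrix.transpose_apply]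
    exact sum_congr rfl fun l _ => by ring
  have hdom : ∀ i, 0 ≤ H k i i - ∑ j, if i = j then 0 else |H k i j| := by
    intro i
    have h1 := hk i i
    rw [Matrix.one_apply_eq] at h1
    have h2 : ∑ j, (if i = j then 0 else |H k i j|) ≤ n * (1 / (2 * ((n : ℝ) + 1))) := by
      calc ∑ j, (if i = j then 0 else |H k i j|) ≤ ∑ _j : Fin n, 1 / (2 * ((n : ℝ) + 1)) := by
            apply sum_le_sum
            intro j _
            split_ifs with h
            · positivity
            · have := hk i j
              rw [Matrix.one_apply_ne h, sub_zero] at this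
              exact this.le
        _ = n * (1 / (2 * ((n : ℝ) + 1))) := by simp
    have h3 : (n : ℝ) * (1 / (2 * ((n : ℝ) + 1))) + 1 / (2 * ((n : ℝ) + 1)) = 1 / 2 := by
      field_simp
    have h4 := (abs_lt.1 h1).1
    have h5 : 0 < 1 / (2 * ((n : ℝ) + 1)) := by positivity
    linarith
  -- the forms
  let ι := (Fin n × Fin n) ⊕ Fin n
  let φ : Fin (Fintype.card ι) ≃ ι := (Fintype.equivFin ι).symm
  let α : ι → Fin n → ℤ := Sum.elim
    (fun q s => P k q.1 s + (if 0 ≤ H k q.1 q.2 then 1 else -1) * P k q.2 s) (fun i s => P k i s)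
  let ω : ι → ℝ := Sum.elim
    (fun q => (if q.1 = q.2 then 0 else |H k q.1 q.2| / 2) / (k : ℝ) ^ 2)
    (fun i => (H k i i - ∑ j, if i = j then 0 else |H k i j|) / (k : ℝ) ^ 2)
  have hω : ∀ q : ι, 0 ≤ ω q := by
    rintro (q | i)
    · simp only [ω, Sum.elim_inl]
      split_ifs <;> positivity
    · simp only [ω, Sum.elim_inr]
      exact div_nonneg (hdom i) (by positivity)
  refine ⟨Fintype.card ι, fun e => α (φ e), fun e => ω (φ e), fun e => hω _, fun x => ?_⟩
  · rw [Equiv.sum_comp φ (fun q => ω q * (∑ i, (α q i : ℝ) * x i) ^ 2)]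
    set y : Fin n → ℝ := fun i => ∑ s, ((P k i s : ℤ) : ℝ) * x s with hy
    have hSx : Matrix.mulVec (S k) x = (1 / (k : ℝ)) • y := by
      ext i
      simp only [Matrix.mulVec, dotProduct, S, Matrix.of_apply, hy, Pi.smul_apply, smul_eq_mul,
        mul_sum]
      exact sum_congr rfl fun s _ => by ring
    have hnorm : ‖∑ i, x i • b i‖ ^ 2 = ∑ i, (Matrix.mulVec M x i) ^ 2 := by
      rw [EuclideanSpace.real_norm_sq_eq]
      apply sum_congr rfl
      intro i _
      congr 1
      simp only [Matrix.mulVec, dotProduct, hM, Matrix.of_apply]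
      simp [mul_comm]
    have hquad : ∑ i, (Matrix.mulVec M x i) ^ 2 = (1 / (k : ℝ)) ^ 2 * ∑ i, ∑ j, H k i j * (y i * y j) := by
      have h1 : Matrix.mulVec M x = (1 / (k : ℝ)) • Matrix.mulVec (R k) y := by
        conv_lhs => rw [hMS]
        rw [← Matrix.mulVec_mulVec, hSx, Matrix.mulVec_smul]
      rw [h1]
      simp only [Pi.smul_apply, smul_eq_mul, mul_pow]
      rw [← mul_sum]
      congr 1
      have h2 : ∀ l, (Matrix.mulVec (R k) y l) ^ 2 =
          ∑ i, ∑ j, (R k l i * y i) * (R k l j * y j) := by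
        intro l
        rw [sq, Matrix.mulVec, dotProduct, sum_mul_sum]
      have h3 : ∀ i j, H k i j * (y i * y j) = ∑ l, (R k l i * y i) * (R k l j * y j) := by
        intro i j
        simp only [hH, Matrix.mul_apply, Matrix.transpose_apply]
        rw [sum_mul]
        exact sum_congr rfl fun l _ => by ring
      simp only [h2, h3]
      rw [sum_comm]
      apply sum_congr rfl
      intro i _
      rw [sum_comm]
    rw [hnorm, hquad, dominant_form (H k) hsymm y, Fintype.sum_sum_type, Fintype.sum_prod_type,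
      mul_add, mul_sum, mul_sum]
    congr 1
    · apply sum_congr rfl
      intro i _
      rw [mul_sum]
      apply sum_congr rfl
      intro j _
      simp only [ω, α, Sum.elim_inl]
      have h1 : ∑ s, (((P k i s + (if 0 ≤ H k i j then 1 else -1) * P k j s : ℤ)) : ℝ) * x s =
          y i + (if 0 ≤ H k i j then 1 else -1) * y j := by
        simp only [hy, mul_sum, ← sum_add_distrib]
        apply sum_congr rfl
        intro s _
        push_cast
        ring
      rw [h1]
      ring
    · apply sum_congr rfl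
      intro i _
      simp only [ω, α, Sum.elim_inr]
      have h1 : ∑ s, ((P k i s : ℤ) : ℝ) * x s = y i := rfl
      rw [h1]
      ring

/-- and the maximal minors of finitely many forms are bounded -/
lemma exists_bound {N : ℕ} (a : Fin N → Fin n → ℤ) : ∃ D : ℕ, 0 < D ∧
    ∀ f : Fin n → Fin N, |(Matrix.of fun i => a (f i)).det| ≤ D := by
  classical
  refine ⟨∑ f : Fin n → Fin N, ((Matrix.of fun i => a (f i)).det).natAbs + 1, by positivity,
    fun f => ?_⟩
  have h1 : ((Matrix.of fun i => a (f i)).det).natAbs ≤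
      ∑ f : Fin n → Fin N, ((Matrix.of fun i => a (f i)).det).natAbs :=
    single_le_sum (f := fun f : Fin n → Fin N => ((Matrix.of fun i => a (f i)).det).natAbs)
      (fun _ _ => Nat.zero_le _) (mem_univ f)
  rw [Int.abs_eq_natAbs]
  exact_mod_cast h1.trans (Nat.le_succ _)

end Pool.Agent.H97.ZL
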