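import Pool.Agent.H97.ZL.Pack

/-!
# Lattices with a unimodular form: the Voronoi cell is a zonotope (helper97)
-/

set_option autoImplicit false

namespace Pool.Agent.H97.ZL

open MeasureTheory Metric Filter Module Finset
open scoped RealInnerProductSpace Topology

variable {n : ℕ}

/-- rounding that respects signs -/
lemma conformal {ι : Type} [Fintype ι] (a : ι → Fin n → ℤ)
    (hspan : ∀ x : Fin n → ℝ, (∀ e, ev (a e) x = 0) → x = 0) (x : Fin n → ℝ)
    (habs : ∀ e, |ev (a e) x| ≤ 1) (l : (Fin n → ℝ) →ₗ[ℝ] ℝ) :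
    ∃ y : Fin n → ℝ, l y ≤ l x ∧ (∀ e, |ev (a e) y| ≤ 1) ∧
      (∀ e, (if 0 ≤ ev (a e) x then (1 : ℝ) else -1) * ev (a e) y = |ev (a e) y|) ∧
      ∃ f : Fin n → ι, (Matrix.of fun i => a (f i)).det ≠ 0 ∧ ∀ i, ∃ k : ℤ, ev (a (f i)) y = k := by
  obtain ⟨y, hy, hly, f, hf, hk⟩ := exists_vertex a hspan
    (fun e => ⌊ev (a e) x⌋) (fun e => ⌈ev (a e) x⌉) l x fun e => ⟨Int.floor_le _, Int.le_ceil _⟩
  refine ⟨y, hly, fun e => ?_, fun e => ?_, f, hf, hk⟩
  · have h1 := abs_le.1 (habs e)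
    rw [abs_le]
    constructor
    · have h2 : (-1 : ℤ) ≤ ⌊ev (a e) x⌋ := Int.le_floor.2 (by push_cast; exact h1.1)
      have h3 : (-1 : ℝ) ≤ ⌊ev (a e) x⌋ := by exact_mod_cast h2
      exact h3.trans (hy e).1
    · have h2 : ⌈ev (a e) x⌉ ≤ 1 := Int.ceil_le.2 (by push_cast; exact h1.2)
      have h3 : ((⌈ev (a e) x⌉ : ℤ) : ℝ) ≤ 1 := by exact_mod_cast h2
      exact (hy e).2.trans h3
  · by_cases h : 0 ≤ ev (a e) x
    · have h1 : (0 : ℝ) ≤ ev (a e) y := by
        have : (0 : ℝ) ≤ ⌊ev (a e) x⌋ := by exact_mod_cast Int.floor_nonneg.2 h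
        exact this.trans (hy e).1
      simp only [if_pos h, one_mul, abs_of_nonneg h1]
    · have h1 : ev (a e) y ≤ 0 := by
        have h2 : ⌈ev (a e) x⌉ ≤ 0 := Int.ceil_le.2 (by push_cast; exact (not_le.1 h).le)
        have : ((⌈ev (a e) x⌉ : ℤ) : ℝ) ≤ 0 := by exact_mod_cast h2
        exact (hy e).2.trans this
      simp only [if_neg h, abs_of_nonpos h1]
      ring

/-- the Voronoi cell of `0` -/
def voronoi (Λ : Submodule ℤ (E n)) : Set (E n) := {x | ∀ v ∈ Λ, ‖x‖ ≤ ‖x - v‖}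

/-- the zonotope with the generators `z_e`, centred at `0` -/
def zonotope {N : ℕ} (z : Fin N → E n) : Set (E n) :=
  {x | ∃ t : Fin N → ℝ, (∀ e, |t e| ≤ 1 / 2) ∧ x = ∑ e, t e • z e}

lemma zonotope_eq {N : ℕ} (z : Fin N → E n) : zonotope z =
    (fun t : Fin N → ℝ => ∑ e, t e • z e) '' Set.pi Set.univ fun _ => Set.Icc (-(1 / 2)) (1 / 2) := by
  ext x
  simp only [zonotope, Set.mem_image, Set.mem_pi, Set.mem_univ, true_implies, Set.mem_Icc]
  constructor
  · rintro ⟨t, ht, rfl⟩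
    exact ⟨t, fun e => abs_le.1 (ht e), rfl⟩
  · rintro ⟨t, ht, rfl⟩
    exact ⟨t, fun e => abs_le.2 (ht e), rfl⟩

lemma zonotope_closed {N : ℕ} (z : Fin N → E n) : IsClosed (zonotope z) := by
  rw [zonotope_eq]
  apply IsCompact.isClosed
  apply IsCompact.image
  · exact isCompact_univ_pi fun _ => isCompact_Icc
  · fun_prop

lemma zonotope_convex {N : ℕ} (z : Fin N → E n) : Convex ℝ (zonotope z) := by
  rintro x ⟨s, hs, rfl⟩ y ⟨t, ht, rfl⟩ α β hα hβ hαβ
  refine ⟨fun e => α * s e + β * t e, fun e => ?_, ?_⟩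
  · calc |α * s e + β * t e| ≤ |α * s e| + |β * t e| := abs_add_le _ _
      _ = α * |s e| + β * |t e| := by rw [abs_mul, abs_mul, abs_of_nonneg hα, abs_of_nonneg hβ]
      _ ≤ α * (1 / 2) + β * (1 / 2) := by
          have := mul_le_mul_of_nonneg_left (hs e) hα
          have := mul_le_mul_of_nonneg_left (ht e) hβ
          linarith
      _ = 1 / 2 := by rw [← add_mul, hαβ, one_mul]
  · simp only [add_smul, mul_smul, sum_add_distrib, smul_sum]

/-- **The Voronoi cell of a lattice with a unimodular form is a zonotope.** -/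
theorem voronoi_eq_zonotope {N : ℕ} {b : Basis (Fin n) ℝ (E n)} {a : Fin N → Fin n → ℤ}
    {w : Fin N → ℝ} (h : HasForm b a w) (hw : ∀ e, 0 ≤ w e)
    (hminors : ∀ f : Fin n → Fin N, |(Matrix.of fun i => a (f i)).det| ≤ 1) :
    ∃ z : Fin N → E n, voronoi (lat b) = zonotope z := by
  classical
  -- the generators
  let F : Fin N → E n →ₗ[ℝ] ℝ := fun e =>
    { toFun := fun v => w e * ev (a e) (fun i => b.repr v i)
      map_add' := fun u v => by
        have : (fun i => b.repr (u + v) i) = (fun i => b.repr u i) + fun i => b.repr v i := by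
          ext i; simp
        rw [this, ev_add, mul_add]
      map_smul' := fun c u => by
        have : (fun i => b.repr (c • u) i) = c • fun i => b.repr u i := by
          ext i; simp
        rw [this, ev_smul, RingHom.id_apply, smul_eq_mul]; ring }
  let z : Fin N → E n := fun e =>
    (InnerProductSpace.toDual ℝ (E n)).symm (LinearMap.toContinuousLinearMap (F e))
  have hz : ∀ e (x : Fin n → ℝ), ⟪z e, ∑ i, x i • b i⟫ = w e * ev (a e) x := by
    intro e x
    rw [InnerProductSpace.toDual_symm_apply]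
    change w e * ev (a e) (fun i => b.repr (∑ i, x i • b i) i) = _
    congr 2
    ext i
    rw [b.repr_sum_self]
  refine ⟨z, Set.Subset.antisymm ?_ ?_⟩
  · -- the Voronoi cell is contained in the zonotope
    intro x hx
    by_contra hxz
    obtain ⟨g, u₀, hg1, hg2⟩ := geometric_hahn_banach_closed_point (zonotope_convex z)
      (zonotope_closed z) hxz
    set u : E n := (InnerProductSpace.toDual ℝ (E n)).symm g with hu
    have hgu : ∀ y, g y = ⟪u, y⟫ := fun y => by
      rw [hu, InnerProductSpace.toDual_symm_apply]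
    set ξ : Fin n → ℝ := fun i => b.repr u i with hξ
    have huξ : u = ∑ i, ξ i • b i := (b.sum_repr u).symm
    have hsum : (∑ e, w e * |ev (a e) ξ|) / 2 < ⟪x, u⟫ := by
      have h1 := hg1 (∑ e, ((if 0 ≤ ev (a e) ξ then (1 : ℝ) else -1) / 2) • z e) ⟨_, fun e => by
        split_ifs <;> norm_num [abs_of_pos, abs_of_neg], rfl⟩
      rw [hgu, inner_sum] at h1
      have h2 : ∀ e, ⟪u, ((if 0 ≤ ev (a e) ξ then (1 : ℝ) else -1) / 2) • z e⟫ =
          w e * |ev (a e) ξ| / 2 := by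
        intro e
        rw [inner_smul_right, real_inner_comm, huξ, hz]
        split_ifs with h0
        · rw [abs_of_nonneg h0]; ring
        · rw [abs_of_neg (not_le.1 h0)]; ring
      rw [sum_congr rfl fun e _ => h2 e, ← sum_div] at h1
      rw [hgu, real_inner_comm] at hg2
      linarith
    -- a positive maximum
    have hne : ∃ e, ev (a e) ξ ≠ 0 := by
      by_contra hcon
      push Not at hcon
      have h0 : ξ = 0 := span_of_pos h.pos ξ hcon
      have h1 : u = 0 := by rw [huξ, h0]; simp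
      rw [h1, inner_zero_right] at hsum
      have : 0 ≤ ∑ e, w e * |ev (a e) ξ| := sum_nonneg fun e _ => mul_nonneg (hw e) (abs_nonneg _)
      linarith
    obtain ⟨e0, he0⟩ := hne
    obtain ⟨e1, -, hmax⟩ := Finset.exists_max_image univ (fun e => |ev (a e) ξ|) ⟨e0, mem_univ _⟩
    have hM : 0 < |ev (a e1) ξ| := lt_of_lt_of_le (abs_pos.2 he0) (hmax e0 (mem_univ _))
    set M := |ev (a e1) ξ| with hMdef
    set ξ' : Fin n → ℝ := M⁻¹ • ξ with hξ'
    have hev : ∀ e, ev (a e) ξ' = M⁻¹ * ev (a e) ξ := fun e => ev_smul _ _ _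
    have habs : ∀ e, |ev (a e) ξ'| ≤ 1 := by
      intro e
      rw [hev, abs_mul, abs_of_pos (inv_pos.2 hM), inv_mul_le_iff₀ hM, mul_one]
      exact hmax e (mem_univ _)
    let l : (Fin n → ℝ) →ₗ[ℝ] ℝ :=
      { toFun := fun ζ => (∑ e, w e * ((if 0 ≤ ev (a e) ξ' then (1 : ℝ) else -1) * ev (a e) ζ)) / 2 -
          ⟪x, ∑ i, ζ i • b i⟫
        map_add' := fun p q => by
          simp only [ev_add, mul_add, sum_add_distrib, Pi.add_apply, add_smul, inner_add_right]
          ring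
        map_smul' := fun c p => by
          simp only [ev_smul, RingHom.id_apply, smul_eq_mul, Pi.smul_apply, mul_smul, ← smul_sum,
            inner_smul_right]
          have : ∑ e, w e * ((if 0 ≤ ev (a e) ξ' then (1 : ℝ) else -1) * (c * ev (a e) p)) =
              c * ∑ e, w e * ((if 0 ≤ ev (a e) ξ' then (1 : ℝ) else -1) * ev (a e) p) := by
            rw [mul_sum]
            exact sum_congr rfl fun e _ => by ring
          rw [this]
          ring }
    have hl : ∀ ζ, l ζ = (∑ e, w e * ((if 0 ≤ ev (a e) ξ' then (1 : ℝ) else -1) * ev (a e) ζ)) / 2 -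
          ⟪x, ∑ i, ζ i • b i⟫ := fun ζ => rfl
    have hlξ : l ξ' < 0 := by
      rw [hl]
      have h1 : ∀ e, (if 0 ≤ ev (a e) ξ' then (1 : ℝ) else -1) * ev (a e) ξ' =
          M⁻¹ * |ev (a e) ξ| := by
        intro e
        split_ifs with h0
        · rw [one_mul, ← abs_of_nonneg h0, hev, abs_mul, abs_of_pos (inv_pos.2 hM)]
        · rw [neg_one_mul, ← abs_of_neg (not_le.1 h0), hev, abs_mul, abs_of_pos (inv_pos.2 hM)]
      have h2 : ∑ e, w e * ((if 0 ≤ ev (a e) ξ' then (1 : ℝ) else -1) * ev (a e) ξ') =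
          M⁻¹ * ∑ e, w e * |ev (a e) ξ| := by
        rw [mul_sum]
        exact sum_congr rfl fun e _ => by rw [h1]; ring
      have h3 : ∑ i, ξ' i • b i = M⁻¹ • u := by
        rw [huξ, smul_sum]
        exact sum_congr rfl fun i _ => by rw [hξ', Pi.smul_apply, smul_eq_mul, mul_smul]
      rw [h2, h3, inner_smul_right]
      have h4 : M⁻¹ * ((∑ e, w e * |ev (a e) ξ|) / 2) < M⁻¹ * ⟪x, u⟫ :=
        mul_lt_mul_of_pos_left hsum (inv_pos.2 hM)
      linarith
    obtain ⟨y, hly, hy1, hys, f, hf, hk⟩ := conformal a (span_of_pos h.pos) ξ' habs l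
    -- `y` is integral
    obtain ⟨c, hc⟩ := integral_multiple a y f hk
    set d : ℤ := (Matrix.of fun i => a (f i)).det with hd
    have hd1 : d * d = 1 := by
      have h1 := hminors f
      rw [← hd] at h1
      have h2 := Int.one_le_abs hf
      have h3 : |d| = 1 := le_antisymm h1 h2
      rw [← abs_mul_abs_self, h3]; norm_num
    have hyc : y = toR (d • c) := by
      have h1 : ((d : ℝ) * d) = 1 := by exact_mod_cast hd1
      have h2 : toR (d • c) = (d : ℝ) • toR c := by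
        ext i; simp [toR]
      rw [h2, hc, smul_smul, h1, one_smul]
    set v : E n := ∑ i, y i • b i with hv
    have hvΛ : v ∈ lat b := by
      rw [hv, hyc]
      exact mem_lat b (d • c)
    have h1 : ‖v‖ ^ 2 = Q w a y := h.eq y
    have h2 : Q w a y ≤ ∑ e, w e * ((if 0 ≤ ev (a e) ξ' then (1 : ℝ) else -1) * ev (a e) y) := by
      rw [Q]
      apply sum_le_sum
      intro e _
      rw [hys]
      apply mul_le_mul_of_nonneg_left _ (hw e)
      rw [← sq_abs]
      have := hy1 e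
      have h0 := abs_nonneg (ev (a e) y)
      nlinarith
    have h3 : l y < 0 := lt_of_le_of_lt hly hlξ
    rw [hl, ← hv] at h3
    have h4 := hx v hvΛ
    have h5 : ‖x - v‖ ^ 2 = ‖x‖ ^ 2 - 2 * ⟪x, v⟫ + ‖v‖ ^ 2 := norm_sub_sq_real x v
    have h6 : ‖x‖ ^ 2 ≤ ‖x - v‖ ^ 2 := pow_le_pow_left₀ (norm_nonneg _) h4 2
    linarith
  · -- the zonotope is contained in the Voronoi cell
    rintro x ⟨t, ht, rfl⟩ v hv
    obtain ⟨c, hc⟩ : ∃ c : Fin n → ℤ, v = ∑ i, (c i : ℝ) • b i := by
      obtain ⟨c, hc⟩ := (Submodule.mem_span_range_iff_exists_fun ℤ).1 hv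
      refine ⟨c, ?_⟩
      rw [← hc]
      exact sum_congr rfl fun i _ => by rw [Int.cast_smul_eq_zsmul]
    have hint : ∀ e, ∃ k : ℤ, ev (a e) (fun i => (c i : ℝ)) = k := fun e =>
      ⟨∑ i, a e i * c i, by simp [ev]⟩
    set x := ∑ e, t e • z e with hx
    have h1 : ⟪x, v⟫ ≤ ‖v‖ ^ 2 / 2 := by
      rw [hx, sum_inner, hc, h.eq, Q, sum_div]
      apply sum_le_sum
      intro e _
      rw [inner_smul_left, hz, conj_trivial]
      obtain ⟨k, hk⟩ := hint e
      rw [hk]
      have h2 : |t e| ≤ 1 / 2 := ht e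
      have h3 : t e * (k : ℝ) ≤ (k : ℝ) ^ 2 / 2 := by
        have h4 : |(k : ℝ)| ≤ (k : ℝ) ^ 2 := by
          rcases eq_or_ne k 0 with h0 | h0
          · simp [h0]
          · have h5 : (1 : ℝ) ≤ |(k : ℝ)| := by
              have := Int.one_le_abs h0
              exact_mod_cast this
            rw [← sq_abs]
            nlinarith
        calc t e * (k : ℝ) ≤ |t e * (k : ℝ)| := le_abs_self _
          _ = |t e| * |(k : ℝ)| := abs_mul _ _
          _ ≤ 1 / 2 * (k : ℝ) ^ 2 := mul_le_mul h2 h4 (abs_nonneg _) (by norm_num)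
          _ = (k : ℝ) ^ 2 / 2 := by ring
      have := mul_le_mul_of_nonneg_left h3 (hw e)
      nlinarith
    have h5 : ‖x - v‖ ^ 2 = ‖x‖ ^ 2 - 2 * ⟪x, v⟫ + ‖v‖ ^ 2 := norm_sub_sq_real x v
    apply le_of_sq_le_sq _ (norm_nonneg _)
    linarith

end Pool.Agent.H97.ZL
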