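import Pool.Agent.H97.ZL.Exist
import Pool.Agent.H97.ZL.Zono

/-!
# Hermite's invariant of lattices with a modular sublattice (helper97)
-/

set_option autoImplicit false

namespace Pool.Agent.H97.ZL

open Filter Module Finset
open scoped RealInnerProductSpace Topology

variable {n : ℕ}

lemma Q_eq_gram {N : ℕ} {A : Matrix (Fin n) (Fin n) ℝ} {a : Fin N → Fin n → ℤ} {w : Fin N → ℝ}
    (h : ∀ i j, (A.transpose * A) i j = ∑ e, w e * (a e i : ℝ) * (a e j : ℝ)) (x : Fin n → ℝ) :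
    Q w a x = ∑ i, (Matrix.mulVec A x) i ^ 2 := by
  have h1 : G w a = A.transpose * A := by
    ext i j
    rw [h i j]
    rfl
  rw [Q_eq, h1, ← Matrix.mulVec_mulVec, Matrix.dotProduct_mulVec, Matrix.vecMul_transpose]
  simp only [dotProduct, sq]

lemma pos_of_gram {N : ℕ} {A : Matrix (Fin n) (Fin n) ℝ} (hA : A.det ≠ 0) {a : Fin N → Fin n → ℤ}
    {w : Fin N → ℝ} (h : ∀ i j, (A.transpose * A) i j = ∑ e, w e * (a e i : ℝ) * (a e j : ℝ))
    (x : Fin n → ℝ) (hx : x ≠ 0) : 0 < Q w a x := by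
  rw [Q_eq_gram h]
  have h1 : Matrix.mulVec A x ≠ 0 := fun h0 => hx (Matrix.eq_zero_of_mulVec_eq_zero hA h0)
  obtain ⟨i, hi⟩ := Function.ne_iff.1 h1
  exact sum_pos' (fun i _ => sq_nonneg _) ⟨i, mem_univ i, by
    have : Matrix.mulVec A x i ≠ 0 := hi
    positivity⟩

/-- inequality for a lattice `A ℤ^n` whose sublattice `A S ℤ^n` has a `D`-modular form -/
theorem sublattice_ineq {N : ℕ} {A : Matrix (Fin n) (Fin n) ℝ} (hA : A.det ≠ 0)
    {S : Matrix (Fin n) (Fin n) ℤ} (hS : S.det ≠ 0) {a : Fin N → Fin n → ℤ} {w : Fin N → ℝ}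
    (hw : ∀ e, 0 ≤ w e)
    (h : ∀ i j, ((A * S.map (Int.cast : ℤ → ℝ)).transpose * (A * S.map (Int.cast : ℤ → ℝ))) i j =
      ∑ e, w e * (a e i : ℝ) * (a e j : ℝ))
    {D : ℕ} (hD : 0 < D) (hminors : ∀ f : Fin n → Fin N, |(Matrix.of fun i => a (f i)).det| ≤ D)
    {m : ℝ} (hm : 0 ≤ m)
    (hmin : ∀ z : Fin n → ℤ, z ≠ 0 → m ≤ ∑ i, (Matrix.mulVec A (fun j => (z j : ℝ))) i ^ 2) :
    m ^ n ≤ (D : ℝ) ^ (2 * n) * √(n.factorial : ℝ) * (A.det ^ 2 * (S.det : ℝ) ^ 2) := by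
  have hSR : (S.map (Int.cast : ℤ → ℝ)).det = ((S.det : ℤ) : ℝ) :=
    ((Int.castRingHom ℝ).map_det S).symm
  have hAS : (A * S.map (Int.cast : ℤ → ℝ)).det ≠ 0 := by
    rw [Matrix.det_mul, hSR]
    exact mul_ne_zero hA (by exact_mod_cast hS)
  have hdet : (G w a).det = A.det ^ 2 * (S.det : ℝ) ^ 2 := by
    have h1 : G w a = (A * S.map (Int.cast : ℤ → ℝ)).transpose * (A * S.map (Int.cast : ℤ → ℝ)) := by
      ext i j
      rw [h i j]
      rfl
    rw [h1, Matrix.det_mul, Matrix.det_transpose, Matrix.det_mul, hSR]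
    ring
  rw [← hdet]
  refine core n a w hw D m (fun f => by exact_mod_cast hminors f) (by exact_mod_cast hD) hm
    (pos_of_gram hAS h) fun z hz => ?_
  rw [Q_eq_gram h]
  have h2 : Matrix.mulVec (A * S.map (Int.cast : ℤ → ℝ)) (toR z) =
      Matrix.mulVec A (fun j => ((Matrix.mulVec S z j : ℤ) : ℝ)) := by
    rw [← Matrix.mulVec_mulVec]
    congr 1
    ext i
    simp [Matrix.mulVec, dotProduct, toR]
  rw [h2]
  apply hmin
  intro h0
  exact hz (Matrix.eq_zero_of_mulVec_eq_zero hS h0)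

/-- the columns of `A` as a basis of `ℝ^n` -/
lemma exists_basis {A : Matrix (Fin n) (Fin n) ℝ} (hA : A.det ≠ 0) :
    ∃ b : Basis (Fin n) ℝ (E n), ∀ i j, (b j) i = A i j := by
  have hu : IsUnit A := (Matrix.isUnit_iff_isUnit_det A).2 hA.isUnit
  have hli : LinearIndependent ℝ A.col := Matrix.linearIndependent_cols_iff_isUnit.2 hu
  let e := (WithLp.linearEquiv 2 ℝ (Fin n → ℝ)).symm
  have hli' : LinearIndependent ℝ (fun j => e (A.col j)) := hli.map' e.toLinearMap e.ker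
  have hcard : Fintype.card (Fin n) = finrank ℝ (E n) := by simp
  let b := basisOfLinearIndependentOfCardEqFinrank' (fun j => e (A.col j)) hli' hcard
  refine ⟨b, fun i j => ?_⟩
  simp only [b, coe_basisOfLinearIndependentOfCardEqFinrank']
  rfl

lemma norm_sum_sq {A : Matrix (Fin n) (Fin n) ℝ} {b : Basis (Fin n) ℝ (E n)}
    (hb : ∀ i j, (b j) i = A i j) (x : Fin n → ℝ) :
    ‖∑ i, x i • b i‖ ^ 2 = ∑ i, (Matrix.mulVec A x i) ^ 2 := by
  rw [EuclideanSpace.real_norm_sq_eq]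
  apply sum_congr rfl
  intro i _
  congr 1
  simp only [Matrix.mulVec, dotProduct, ← hb]
  simp [mul_comm]

lemma hasForm_of_gram {N : ℕ} {A : Matrix (Fin n) (Fin n) ℝ} {b : Basis (Fin n) ℝ (E n)}
    (hb : ∀ i j, (b j) i = A i j) {a : Fin N → Fin n → ℤ} {w : Fin N → ℝ}
    (h : ∀ i j, (A.transpose * A) i j = ∑ e, w e * (a e i : ℝ) * (a e j : ℝ)) :
    HasForm b a w := by
  intro x
  rw [norm_sum_sq hb, ← Q_eq_gram h]
  rfl

lemma gram_of_hasForm {N : ℕ} {A : Matrix (Fin n) (Fin n) ℝ} {b : Basis (Fin n) ℝ (E n)}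
    (hb : ∀ i j, (b j) i = A i j) {a : Fin N → Fin n → ℤ} {w : Fin N → ℝ} (h : HasForm b a w) :
    ∀ i j, (A.transpose * A) i j = ∑ e, w e * (a e i : ℝ) * (a e j : ℝ) := by
  intro i j
  have h1 := h.gram i j
  rw [G, Matrix.of_apply] at h1
  rw [h1, PiLp.inner_apply, Matrix.mul_apply]
  apply sum_congr rfl
  intro k _
  rw [Matrix.transpose_apply, ← hb, ← hb]
  simp [mul_comm]

end Pool.Agent.H97.ZL
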