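import Pool.Agent.H97.ZL.Core

/-!
# Induction on the dimension (helper97)
-/

set_option autoImplicit false

namespace Pool.Agent.H97.ZL

open Finset Matrix

variable {n : ℕ} {ι : Type} [Fintype ι]

/-- restriction to the integer points of the kernel of a nonzero form -/
theorem restrict (a : ι → Fin (n + 1) → ℤ) (w : ι → ℝ) (D : ℝ) (hD : MinorsLE a D)
    (hpos : ∀ x : Fin (n + 1) → ℝ, x ≠ 0 → 0 < Q w a x) (e : ι) (he : a e ≠ 0) :
    ∃ a' : ι → Fin n → ℤ, MinorsLE a' D ∧
      (∀ z : Fin n → ℤ, z ≠ 0 → ∃ z' : Fin (n + 1) → ℤ, z' ≠ 0 ∧ Q w a' (toR z) = Q w a (toR z')) ∧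
      (∀ x : Fin n → ℝ, x ≠ 0 → 0 < Q w a' x) ∧ (G w a').det ≤ p w a e := by
  classical
  -- the form `a e` and its kernel
  let φ : (Fin (n + 1) → ℤ) →ₗ[ℤ] ℤ :=
    { toFun := fun u => ∑ i, a e i * u i
      map_add' := fun u v => by simp only [Pi.add_apply, mul_add, sum_add_distrib]
      map_smul' := fun c u => by
        simp only [Pi.smul_apply, smul_eq_mul, RingHom.id_apply, mul_sum]
        exact sum_congr rfl fun i _ => by ring }
  have hφ : ∀ u, φ u = ∑ i, a e i * u i := fun u => rfl
  obtain ⟨k, b⟩ := Submodule.basisOfPid (Pi.basisFun ℤ (Fin (n + 1))) (LinearMap.ker φ)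
  set g : ℤ := Submodule.IsPrincipal.generator (LinearMap.range φ) with hg
  obtain ⟨z, hz⟩ : ∃ z, φ z = g := by
    have := Submodule.IsPrincipal.generator_mem (LinearMap.range φ)
    exact this
  have hdiv : ∀ u, ∃ t : ℤ, φ u = t * g := by
    intro u
    obtain ⟨t, ht⟩ := (Submodule.IsPrincipal.mem_iff_eq_smul_generator (LinearMap.range φ)).1
      (LinearMap.mem_range_self φ u)
    exact ⟨t, by rw [ht, smul_eq_mul]⟩
  have hg0 : g ≠ 0 := by
    intro h0
    apply he
    ext i
    obtain ⟨t, ht⟩ := hdiv (Pi.single i 1)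
    rw [h0, mul_zero, hφ] at ht
    simpa [Pi.single_apply] using ht
  have hli : ∀ (c : ℤ), ∀ x ∈ LinearMap.ker φ, c • z + x = 0 → c = 0 := by
    intro c x hx h
    have h1 := congrArg φ h
    rw [map_add, map_smul, LinearMap.mem_ker.1 hx, hz, map_zero, add_zero, smul_eq_mul] at h1
    rcases mul_eq_zero.1 h1 with h2 | h2
    · exact h2
    · exact absurd h2 hg0
  have hsp : ∀ u : Fin (n + 1) → ℤ, ∃ c : ℤ, u + c • z ∈ LinearMap.ker φ := by
    intro u
    obtain ⟨t, ht⟩ := hdiv u
    refine ⟨-t, ?_⟩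
    rw [LinearMap.mem_ker, map_add, map_smul, hz, ht, smul_eq_mul]
    ring
  let c := Module.Basis.mkFinCons z b hli hsp
  have hk : k = n := by
    have h1 := Module.finrank_eq_card_basis c
    rw [Module.finrank_fin_fun, Fintype.card_fin] at h1
    omega
  subst hk
  have hc0 : c 0 = z := by
    simp only [c, Module.Basis.coe_mkFinCons, Fin.cons_zero]
  have hcs : ∀ j : Fin k, c j.succ = (b j : Fin (k + 1) → ℤ) := by
    intro j
    simp only [c, Module.Basis.coe_mkFinCons, Fin.cons_succ, Function.comp_apply]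
  -- the change of coordinates
  set C : Matrix (Fin (k + 1)) (Fin (k + 1)) ℤ := Matrix.of fun i j => c j i with hC
  have hCdet : IsUnit C.det := by
    have h1 := (Pi.basisFun ℤ (Fin (k + 1))).isUnit_det c
    rw [Module.Basis.det_apply] at h1
    have h2 : (Pi.basisFun ℤ (Fin (k + 1))).toMatrix c = C := by
      ext i j
      simp [Module.Basis.toMatrix_apply, hC]
    rw [h2] at h1
    exact h1
  have hCabs : C.det * C.det = 1 := Int.isUnit_mul_self hCdet
  set A : ι → Fin (k + 1) → ℤ := fun f j => ∑ i, a f i * C i j with hA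
  have hAe0 : A e 0 = g := by
    simp only [hA, hC, of_apply, hc0]
    exact hz
  have hAes : ∀ j : Fin k, A e j.succ = 0 := by
    intro j
    simp only [hA, hC, of_apply, hcs]
    exact LinearMap.mem_ker.1 (b j).2
  set a' : ι → Fin k → ℤ := fun f j => A f j.succ with ha'
  have hevA : ∀ f (x : Fin (k + 1) → ℝ), ev (A f) x = ev (a f) ((C.map (Int.cast : ℤ → ℝ)) *ᵥ x) := by
    intro f x
    simp only [ev, hA, mulVec, dotProduct, Matrix.map_apply, Int.cast_sum, Int.cast_mul, sum_mul,
      mul_sum]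
    rw [sum_comm]
    exact sum_congr rfl fun i _ => sum_congr rfl fun j _ => by ring
  have heva' : ∀ f (x : Fin k → ℝ), ev (a' f) x = ev (A f) (Fin.cons 0 x : Fin (k + 1) → ℝ) := by
    intro f x
    simp only [ev, ha', Fin.sum_univ_succ, Fin.cons_zero, Fin.cons_succ, mul_zero, zero_add]
  have hCR : ((C.map (Int.cast : ℤ → ℝ))).det ≠ 0 := by
    have h1 : ((C.map (Int.cast : ℤ → ℝ))).det = ((C.det : ℤ) : ℝ) :=
      ((Int.castRingHom ℝ).map_det C).symm
    rw [h1]
    exact_mod_cast hCdet.ne_zero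
  have hQ' : ∀ x : Fin k → ℝ, Q w a' x =
      Q w a ((C.map (Int.cast : ℤ → ℝ)) *ᵥ (Fin.cons 0 x : Fin (k + 1) → ℝ)) := by
    intro x
    simp only [Q, heva', hevA]
  refine ⟨a', ?_, ?_, ?_, ?_⟩
  · -- minors
    intro f
    have h1 : (Matrix.of (Fin.cons (A e) fun i => A (f i)) : Matrix (Fin (k + 1)) (Fin (k + 1)) ℤ) =
        (Matrix.of (Fin.cons (a e) fun i => a (f i)) : Matrix (Fin (k + 1)) (Fin (k + 1)) ℤ) * C := by
      ext i j
      refine Fin.cases ?_ (fun i => ?_) i
      · simp only [of_apply, Fin.cons_zero, mul_apply, hA]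
      · simp only [of_apply, Fin.cons_succ, mul_apply, hA]
    have h2 : (Matrix.of (Fin.cons (A e) fun i => A (f i)) :
        Matrix (Fin (k + 1)) (Fin (k + 1)) ℤ).det = g * (Matrix.of fun i => a' (f i)).det := by
      rw [det_succ_row_zero, Fin.sum_univ_succ]
      rw [sum_eq_zero, add_zero]
      · simp only [Fin.val_zero, pow_zero, one_mul, of_apply, Fin.cons_zero, hAe0]
        congr 2
      · intro j _
        simp only [of_apply, Fin.cons_zero, hAes, mul_zero, zero_mul]
    have h3 : (Matrix.of (Fin.cons (a e) fun i => a (f i)) :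
        Matrix (Fin (k + 1)) (Fin (k + 1)) ℤ) = Matrix.of fun i => a ((Fin.cons e f : Fin (k + 1) → ι) i) := by
      ext i j
      refine Fin.cases ?_ (fun i => ?_) i
      · simp only [of_apply, Fin.cons_zero]
      · simp only [of_apply, Fin.cons_succ]
    rw [h1, det_mul, h3] at h2
    have h4 := hD (Fin.cons e f)
    have h5 : |(((Matrix.of fun i => a ((Fin.cons e f : Fin (k + 1) → ι) i)).det : ℤ) : ℝ)| =
        |(g : ℝ)| * |(((Matrix.of fun i => a' (f i)).det : ℤ) : ℝ)| := by
      have h6 : |((C.det : ℤ) : ℝ)| = 1 := by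
        have : ((C.det : ℤ) : ℝ) * C.det = 1 := by exact_mod_cast hCabs
        have h7 : |((C.det : ℤ) : ℝ)| * |((C.det : ℤ) : ℝ)| = 1 := by
          rw [← abs_mul, this, abs_one]
        nlinarith [abs_nonneg ((C.det : ℤ) : ℝ)]
      rw [← abs_mul]
      have h8 := congrArg (fun t : ℤ => |(t : ℝ)|) h2
      simp only [Int.cast_mul, abs_mul, h6, mul_one] at h8
      rw [abs_mul]
      exact h8
    rw [h5] at h4
    have h6 : (1 : ℝ) ≤ |(g : ℝ)| := by
      have : (1 : ℤ) ≤ |g| := Int.one_le_abs hg0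
      exact_mod_cast this
    calc |(((Matrix.of fun i => a' (f i)).det : ℤ) : ℝ)|
        = 1 * |(((Matrix.of fun i => a' (f i)).det : ℤ) : ℝ)| := (one_mul _).symm
      _ ≤ |(g : ℝ)| * |(((Matrix.of fun i => a' (f i)).det : ℤ) : ℝ)| :=
          mul_le_mul_of_nonneg_right h6 (abs_nonneg _)
      _ ≤ D := h4
  · -- integer points
    intro u hu
    refine ⟨C *ᵥ (Fin.cons 0 u : Fin (k + 1) → ℤ), ?_, ?_⟩
    · intro h0
      have h1 : C⁻¹ *ᵥ (C *ᵥ (Fin.cons 0 u : Fin (k + 1) → ℤ)) = 0 := by rw [h0, mulVec_zero]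
      rw [mulVec_mulVec, nonsing_inv_mul C hCdet, one_mulVec] at h1
      apply hu
      ext i
      have := congrFun h1 i.succ
      simpa using this
    · rw [hQ']
      congr 1
      ext i
      simp only [mulVec, dotProduct, Matrix.map_apply, toR, Fin.sum_univ_succ, Fin.cons_zero,
        Fin.cons_succ, mul_zero]
      push_cast
      rfl
  · intro x hx
    rw [hQ']
    apply hpos
    intro h0
    have h1 := Matrix.eq_zero_of_mulVec_eq_zero hCR h0
    apply hx
    ext i
    have := congrFun h1 i.succ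
    simpa using this
  · -- determinants
    have hGA : G w A = (C.map (Int.cast : ℤ → ℝ))ᵀ * G w a * C.map (Int.cast : ℤ → ℝ) := by
      ext i j
      simp only [G, of_apply, mul_apply, transpose_apply, Matrix.map_apply, hA, Int.cast_sum,
        Int.cast_mul, sum_mul, mul_sum]
      rw [sum_comm]
      apply sum_congr rfl
      intro s _
      rw [sum_comm]
      apply sum_congr rfl
      intro t _
      exact sum_congr rfl fun e _ => by ring
    have hsub : G w a' = (G w A).submatrix (Fin.succAbove 0) (Fin.succAbove 0) := by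
      ext i j
      simp only [G, of_apply, submatrix_apply, ha', Fin.succAbove_zero]
    have hadj : (G w A).adjugate 0 0 = (G w a').det := by
      rw [adjugate_fin_succ_eq_det_submatrix, hsub]
      simp
    have hadjmul : (G w A).adjugate = (C.map (Int.cast : ℤ → ℝ)).adjugate * (G w a).adjugate *
        (C.map (Int.cast : ℤ → ℝ))ᵀ.adjugate := by
      rw [hGA, adjugate_mul_distrib, adjugate_mul_distrib, mul_assoc]
    have hAeR : toR (A e) = (C.map (Int.cast : ℤ → ℝ))ᵀ *ᵥ toR (a e) := by
      ext j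
      simp only [toR, hA, mulVec, dotProduct, transpose_apply, Matrix.map_apply, Int.cast_sum,
        Int.cast_mul]
      exact sum_congr rfl fun i _ => by ring
    have hCsq : (C.map (Int.cast : ℤ → ℝ)).det * (C.map (Int.cast : ℤ → ℝ)).det = 1 := by
      have h1 : ((C.map (Int.cast : ℤ → ℝ))).det = ((C.det : ℤ) : ℝ) :=
        ((Int.castRingHom ℝ).map_det C).symm
      rw [h1]
      exact_mod_cast hCabs
    have hpA : p w A e = p w a e := by
      unfold p
      rw [hadjmul, hAeR]
      set R := C.map (Int.cast : ℤ → ℝ) with hR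
      have h1 : (R.adjugate * (G w a).adjugate * Rᵀ.adjugate) *ᵥ (Rᵀ *ᵥ toR (a e)) =
          R.det • (R.adjugate *ᵥ ((G w a).adjugate *ᵥ toR (a e))) := by
        rw [mulVec_mulVec, mul_assoc, adjugate_mul, det_transpose, Matrix.mul_smul, Matrix.mul_one,
          smul_mulVec, ← mulVec_mulVec]
      rw [h1, dotProduct_smul, smul_eq_mul]
      have h2 : (Rᵀ *ᵥ toR (a e)) ⬝ᵥ (R.adjugate *ᵥ ((G w a).adjugate *ᵥ toR (a e))) =
          R.det * (toR (a e) ⬝ᵥ ((G w a).adjugate *ᵥ toR (a e))) := by
        rw [mulVec_transpose, ← dotProduct_mulVec, mulVec_mulVec, mul_adjugate, smul_mulVec,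
          one_mulVec, dotProduct_smul, smul_eq_mul]
      rw [h2, ← mul_assoc, hCsq, one_mul]
    have hpA2 : p w A e = (g : ℝ) ^ 2 * (G w a').det := by
      have h1 : toR (A e) = Pi.single 0 (g : ℝ) := by
        ext j
        refine Fin.cases ?_ (fun j => ?_) j
        · simp [toR, hAe0]
        · simp [toR, hAes]
      unfold p
      rw [h1, single_dotProduct, mulVec_single, ← hadj]
      simp only [Pi.smul_apply, MulOpposite.smul_eq_mul_unop, MulOpposite.unop_op, col_apply]
      ring
    have hdet' : 0 ≤ (G w a').det := by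
      apply (det_pos _).le
      intro x hx
      rw [hQ']
      apply hpos
      intro h0
      have h1 := Matrix.eq_zero_of_mulVec_eq_zero hCR h0
      apply hx
      ext i
      have := congrFun h1 i.succ
      simpa using this
    rw [← hpA, hpA2]
    have h6 : (1 : ℝ) ≤ (g : ℝ) ^ 2 := by
      have : (1 : ℤ) ≤ g ^ 2 := by
        have := Int.one_le_abs hg0
        nlinarith [sq_abs g, abs_nonneg g]
      exact_mod_cast this
    nlinarith

/-- **The main inequality.** If all maximal minors of the integer forms `a_e` are at most `D`, and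
`Q = ∑ w_e a_e²` is at least `m` at all nonzero integer points, then
`m ^ n ≤ D ^ (2 n) √(n!) det Q`. -/
theorem core : ∀ (n : ℕ) {ι : Type} [Fintype ι] (a : ι → Fin n → ℤ) (w : ι → ℝ), (∀ e, 0 ≤ w e) →
    ∀ D m : ℝ, MinorsLE a D → 0 < D → 0 ≤ m → (∀ x : Fin n → ℝ, x ≠ 0 → 0 < Q w a x) →
    (∀ z : Fin n → ℤ, z ≠ 0 → m ≤ Q w a (toR z)) →
    m ^ n ≤ D ^ (2 * n) * √(n.factorial : ℝ) * (G w a).det := by
  intro n
  induction n with
  | zero =>
    intro ι _ a w hw D m hD hD0 hm hpos hmin
    simp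
  | succ n ih =>
    intro ι _ a w hw D m hD hD0 hm hpos hmin
    classical
    have hdet := det_pos hpos
    set S : ℝ := √(n.factorial : ℝ) with hS
    have hS0 : 0 < S := Real.sqrt_pos.2 (by exact_mod_cast n.factorial_pos)
    have hW0 : 0 ≤ W w a := sum_nonneg fun e _ => hw e
    -- every nonzero form
    have h1 : ∀ e, a e ≠ 0 → m ^ n / (D ^ (2 * n) * S) ≤ p w a e := by
      intro e he
      obtain ⟨a', hD', hmin', hpos', hdet'⟩ := restrict a w D hD hpos e he
      have h2 := ih a' w hw D m hD' hD0 hm hpos' (fun z hz => by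
        obtain ⟨z', hz', h⟩ := hmin' z hz
        rw [h]
        exact hmin z' hz')
      rw [div_le_iff₀ (by positivity)]
      calc m ^ n ≤ D ^ (2 * n) * S * (G w a').det := h2
        _ ≤ D ^ (2 * n) * S * p w a e := mul_le_mul_of_nonneg_left hdet' (by positivity)
        _ = p w a e * (D ^ (2 * n) * S) := mul_comm _ _
    have h2 : W w a * (m ^ n / (D ^ (2 * n) * S)) ≤ (n + 1 : ℕ) * (G w a).det := by
      rw [← euler w a]
      have h3 : ∑ e, w e * p w a e = ∑ e with a e ≠ 0, w e * p w a e := by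
        symm
        apply sum_subset (filter_subset _ _)
        intro f _ hf
        have hf' : a f = 0 := by simpa using hf
        rw [p_zero w a f hf', mul_zero]
      rw [h3, W, sum_mul]
      apply sum_le_sum
      intro e he
      exact mul_le_mul_of_nonneg_left (h1 e (by simpa using he)) (hw e)
    have h3 := W_ge a w hw D m hD hD0 hm hpos hmin
    have h4 : m / D ^ 2 * √((n + 1 : ℕ) : ℝ) ≤ W w a := by
      apply le_of_sq_le_sq _ hW0
      rw [mul_pow, Real.sq_sqrt (by positivity)]
      exact h3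
    have h5 : m / D ^ 2 * √((n + 1 : ℕ) : ℝ) * (m ^ n / (D ^ (2 * n) * S)) ≤
        (n + 1 : ℕ) * (G w a).det :=
      (mul_le_mul_of_nonneg_right h4 (by positivity)).trans h2
    set r : ℝ := √((n + 1 : ℕ) : ℝ) with hr
    have hr0 : 0 < r := Real.sqrt_pos.2 (by positivity)
    have hr2 : r * r = ((n + 1 : ℕ) : ℝ) := Real.mul_self_sqrt (by positivity)
    have hfac : √((n + 1).factorial : ℝ) = r * S := by
      rw [Nat.factorial_succ, Nat.cast_mul, Real.sqrt_mul (by positivity)]
    rw [hfac]
    rw [← hr2] at h5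
    have h6 : m / D ^ 2 * r * (m ^ n / (D ^ (2 * n) * S)) = m ^ (n + 1) * r / (D ^ (2 * (n + 1)) * S) := by
      field_simp
      ring
    rw [h6, div_le_iff₀ (by positivity)] at h5
    have h7 : m ^ (n + 1) * r ≤ D ^ (2 * (n + 1)) * (r * S) * (G w a).det * r := by
      calc m ^ (n + 1) * r ≤ r * r * (G w a).det * (D ^ (2 * (n + 1)) * S) := h5
        _ = D ^ (2 * (n + 1)) * (r * S) * (G w a).det * r := by ring
    exact le_of_mul_le_mul_right h7 hr0

end Pool.Agent.H97.ZL
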