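import Pool.Agent.H97.ZL.Dens

/-!
# Packings by lattices with a modular form (helper97)
-/

set_option autoImplicit false

namespace Pool.Agent.H97.ZL

open MeasureTheory Metric Filter Module Finset
open Pool.Agent.H818R2 (IsPacking body upperDensity)
open scoped RealInnerProductSpace

variable {n : ℕ}

/-- squared lengths in the basis `b` are `∑ w_e (a_e · x)²` -/
def HasForm {N : ℕ} (b : Basis (Fin n) ℝ (E n)) (a : Fin N → Fin n → ℤ) (w : Fin N → ℝ) : Prop :=
  ∀ x : Fin n → ℝ, ‖∑ i, x i • b i‖ ^ 2 = ∑ e, w e * (∑ i, (a e i : ℝ) * x i) ^ 2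

lemma HasForm.eq {N : ℕ} {b : Basis (Fin n) ℝ (E n)} {a : Fin N → Fin n → ℤ} {w : Fin N → ℝ}
    (h : HasForm b a w) (x : Fin n → ℝ) : ‖∑ i, x i • b i‖ ^ 2 = Q w a x := h x

lemma HasForm.pos {N : ℕ} {b : Basis (Fin n) ℝ (E n)} {a : Fin N → Fin n → ℤ} {w : Fin N → ℝ}
    (h : HasForm b a w) (x : Fin n → ℝ) (hx : x ≠ 0) : 0 < Q w a x := by
  rw [← h.eq]
  have : ∑ i, x i • b i ≠ 0 := by
    intro h0
    exact hx (funext fun i => Fintype.linearIndependent_iff.1 b.linearIndependent x h0 i)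
  positivity

lemma HasForm.gram {N : ℕ} {b : Basis (Fin n) ℝ (E n)} {a : Fin N → Fin n → ℤ} {w : Fin N → ℝ}
    (h : HasForm b a w) (i j : Fin n) : G w a i j = ⟪b i, b j⟫ := by
  classical
  have hs : ∀ i, ∑ k, (Pi.single i (1 : ℝ) : Fin n → ℝ) k • b k = b i := by
    intro i
    rw [Finset.sum_eq_single i]
    · simp
    · intro k _ hk
      simp [hk]
    · simp
  have h1 := h.eq (Pi.single i 1)
  have h2 := h.eq (Pi.single j 1)
  have h3 := h.eq (Pi.single i 1 + Pi.single j 1)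
  simp only [Pi.add_apply, add_smul, sum_add_distrib] at h3
  rw [hs] at h1 h2
  rw [hs, hs] at h3
  have he : ∀ e i, ev (a e) (Pi.single i 1) = (a e i : ℝ) := by
    intro e i
    rw [ev, Finset.sum_eq_single i]
    · simp
    · intro k _ hk
      simp [hk]
    · simp
  have h4 : ‖b i + b j‖ ^ 2 = ‖b i‖ ^ 2 + 2 * ⟪b i, b j⟫ + ‖b j‖ ^ 2 := norm_add_sq_real _ _
  simp only [Q, ev_add, he] at h1 h2 h3
  have h5 : ∑ e, w e * ((a e i : ℝ) + a e j) ^ 2 = ∑ e, w e * (a e i : ℝ) ^ 2 +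
      2 * ∑ e, w e * (a e i : ℝ) * (a e j : ℝ) + ∑ e, w e * (a e j : ℝ) ^ 2 := by
    rw [mul_sum, ← sum_add_distrib, ← sum_add_distrib]
    exact sum_congr rfl fun e _ => by ring
  simp only [G, Matrix.of_apply]
  rw [h5] at h3
  linarith

lemma covol_sq {N : ℕ} {b : Basis (Fin n) ℝ (E n)} {a : Fin N → Fin n → ℤ} {w : Fin N → ℝ}
    (h : HasForm b a w) : covol b ^ 2 = (G w a).det := by
  set b₀ := (EuclideanSpace.basisFun (Fin n) ℝ) with hb₀
  have h1 : volume.real (ZSpan.fundamentalDomain b₀.toBasis) = 1 := by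
    have h2 := ZSpan.fundamentalDomain_ae_parallelepiped b₀.toBasis volume
    rw [measureReal_congr h2, measureReal_def]
    have h3 := b₀.volume_parallelepiped
    rw [OrthonormalBasis.coe_toBasis, h3]
    simp
  have h2 : covol b = |b₀.toBasis.det b| := by
    rw [covol, ZSpan.measureReal_fundamentalDomain b volume b₀.toBasis, h1, mul_one]
  rw [h2, sq_abs, Basis.det_apply]
  set M := b₀.toBasis.toMatrix b with hM
  have h3 : G w a = M.transpose * M := by
    ext i j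
    rw [h.gram, Matrix.mul_apply]
    simp only [Matrix.transpose_apply, hM, Basis.toMatrix_apply, OrthonormalBasis.coe_toBasis_repr_apply,
      hb₀, EuclideanSpace.basisFun_repr]
    rw [PiLp.inner_apply]
    exact sum_congr rfl fun k _ => by simp [mul_comm]
  rw [h3, Matrix.det_mul, Matrix.det_transpose, sq]

/-- distances in packings -/
lemma dist_ge {X : Set (E n)} {r : ℝ} (h : IsPacking X r) {x y : E n} (hx : x ∈ X) (hy : y ∈ X)
    (hne : x ≠ y) : 2 * r ≤ ‖x - y‖ := by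
  by_contra hlt
  push Not at hlt
  have hd := h.2 hx hy hne
  rw [Function.onFun, Set.disjoint_left] at hd
  apply hd (a := (1 / 2 : ℝ) • (x + y))
  · rw [mem_ball, dist_eq_norm]
    have : (1 / 2 : ℝ) • (x + y) - x = (-(1 / 2) : ℝ) • (x - y) := by module
    rw [this, norm_smul]
    norm_num
    linarith
  · rw [mem_ball, dist_eq_norm]
    have : (1 / 2 : ℝ) • (x + y) - y = (1 / 2 : ℝ) • (x - y) := by module
    rw [this, norm_smul]
    norm_num
    linarith

lemma mem_lat (b : Basis (Fin n) ℝ (E n)) (z : Fin n → ℤ) : ∑ i, (z i : ℝ) • b i ∈ lat b := by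
  apply Submodule.sum_mem
  intro i _
  have h1 : (z i : ℝ) • b i = z i • b i := by
    rw [Int.cast_smul_eq_zsmul]
  rw [h1]
  exact Submodule.smul_mem _ _ (Submodule.subset_span ⟨i, rfl⟩)

/-- **Lattices with a `D`-modular form.** -/
theorem lattice_ineq {N : ℕ} {b : Basis (Fin n) ℝ (E n)} {a : Fin N → Fin n → ℤ} {w : Fin N → ℝ}
    (h : HasForm b a w) (hw : ∀ e, 0 ≤ w e) {D : ℕ} (hD : 0 < D)
    (hminors : ∀ f : Fin n → Fin N, |(Matrix.of fun i => a (f i)).det| ≤ D) {m : ℝ} (hm : 0 ≤ m)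
    (hmin : ∀ v ∈ lat b, v ≠ 0 → m ≤ ‖v‖ ^ 2) :
    m ^ n ≤ (D : ℝ) ^ (2 * n) * √(n.factorial : ℝ) * covol b ^ 2 := by
  rw [covol_sq h]
  refine core n a w hw D m (fun f => ?_) (by exact_mod_cast hD) hm h.pos fun z hz => ?_
  · have := hminors f
    exact_mod_cast this
  · rw [← h.eq]
    refine hmin _ ?_ ?_
    · exact mem_lat b z
    · intro h0
      apply hz
      ext i
      have := Fintype.linearIndependent_iff.1 b.linearIndependent (toR z) h0 i
      simpa [toR] using this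

lemma piece_le {N : ℕ} {b : Basis (Fin n) ℝ (E n)} {a : Fin N → Fin n → ℤ} {w : Fin N → ℝ}
    (h : HasForm b a w) (hw : ∀ e, 0 ≤ w e) {D : ℕ} (hD : 0 < D)
    (hminors : ∀ f : Fin n → Fin N, |(Matrix.of fun i => a (f i)).det| ≤ D) {X : Set (E n)} {r : ℝ}
    (hX : IsPacking X r) (t : E n) (hsub : (fun v => t + v) '' (lat b : Set (E n)) ⊆ X) :
    r ^ n * V n / covol b ≤ (D : ℝ) ^ n * √(√(n.factorial : ℝ)) * V n / 2 ^ n := by
  have hr := hX.1
  have hV := V_pos n
  have hc := covol_pos b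
  have h1 := lattice_ineq h hw hD hminors (m := (2 * r) ^ 2) (by positivity) (fun v hv hv0 => by
    have h2 : 2 * r ≤ ‖(t + v) - (t + 0)‖ :=
      dist_ge hX (hsub ⟨v, hv, rfl⟩) (hsub ⟨0, (lat b).zero_mem, rfl⟩) (by simpa using hv0)
    have h3 : (t + v) - (t + 0) = v := by abel
    rw [h3] at h2
    exact pow_le_pow_left₀ (by positivity) h2 2)
  have h2 : (2 * r) ^ n ≤ (D : ℝ) ^ n * √(√(n.factorial : ℝ)) * covol b := by
    apply le_of_sq_le_sq _ (by positivity)
    have h3 : ((D : ℝ) ^ n * √(√(n.factorial : ℝ)) * covol b) ^ 2 =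
        (D : ℝ) ^ (2 * n) * √(n.factorial : ℝ) * covol b ^ 2 := by
      rw [mul_pow, mul_pow, Real.sq_sqrt (by positivity), ← pow_mul, mul_comm n 2]
    rw [h3]
    calc ((2 * r) ^ n) ^ 2 = ((2 * r) ^ 2) ^ n := by rw [← pow_mul, ← pow_mul, mul_comm n 2]
      _ ≤ _ := h1
  rw [div_le_div_iff₀ hc (by positivity)]
  calc r ^ n * V n * 2 ^ n = (2 * r) ^ n * V n := by rw [mul_pow]; ring
    _ ≤ (D : ℝ) ^ n * √(√(n.factorial : ℝ)) * covol b * V n :=
        mul_le_mul_of_nonneg_right h2 hV.le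
    _ = _ := by ring

end Pool.Agent.H97.ZL
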