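import Mathlib

/-!
# Vertices of polytopes cut out by integer linear forms (helper97)

`exists_vertex`: a point of the polytope `lo_e ≤ a_e(y) ≤ hi_e` (the forms `a_e` span the dual space)
can be moved to a vertex without increasing a given linear functional; at a vertex `n` independent
forms have integral values.
-/

set_option autoImplicit false

namespace Pool.Agent.H97.ZL

open Finset

/-- the value of the integer linear form `a` at the real point `x` -/
def ev {n : ℕ} (a : Fin n → ℤ) (x : Fin n → ℝ) : ℝ := ∑ i, (a i : ℝ) * x i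

variable {n : ℕ}

lemma ev_add (a : Fin n → ℤ) (x y : Fin n → ℝ) : ev a (x + y) = ev a x + ev a y := by
  simp only [ev, Pi.add_apply, mul_add, sum_add_distrib]

lemma ev_smul (a : Fin n → ℤ) (c : ℝ) (x : Fin n → ℝ) : ev a (c • x) = c * ev a x := by
  simp only [ev, Pi.smul_apply, smul_eq_mul, mul_sum]
  exact sum_congr rfl fun i _ => by ring

lemma ev_neg (a : Fin n → ℤ) (x : Fin n → ℝ) : ev a (-x) = -ev a x := by
  rw [← neg_one_smul ℝ x, ev_smul]; ring

/-- one step: a feasible point whose tight forms do not span can be improved -/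
theorem step {ι : Type} [Fintype ι] (a : ι → Fin n → ℤ)
    (hspan : ∀ x : Fin n → ℝ, (∀ e, ev (a e) x = 0) → x = 0)
    (lo hi : ι → ℤ) (l : (Fin n → ℝ) →ₗ[ℝ] ℝ) (y : Fin n → ℝ)
    (hy : ∀ e, (lo e : ℝ) ≤ ev (a e) y ∧ ev (a e) y ≤ hi e)
    (hS : Submodule.span ℝ ((fun e i => (a e i : ℝ)) ''
      {e | ev (a e) y = lo e ∨ ev (a e) y = hi e}) < ⊤) :
    ∃ z : Fin n → ℝ, (∀ e, (lo e : ℝ) ≤ ev (a e) z ∧ ev (a e) z ≤ hi e) ∧ l z ≤ l y ∧
      Submodule.span ℝ ((fun e i => (a e i : ℝ)) '' {e | ev (a e) y = lo e ∨ ev (a e) y = hi e}) <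
      Submodule.span ℝ ((fun e i => (a e i : ℝ)) '' {e | ev (a e) z = lo e ∨ ev (a e) z = hi e}) := by
  classical
  obtain ⟨f, hf0, hf⟩ := Submodule.exists_le_ker_of_lt_top _ hS
  -- the direction
  have key : ∃ v : Fin n → ℝ, l v ≤ 0 ∧ (∃ e, ev (a e) v ≠ 0) ∧
      (∀ e, (ev (a e) y = lo e ∨ ev (a e) y = hi e) → ev (a e) v = 0) ∧
      ∃ g : (Fin n → ℝ) →ₗ[ℝ] ℝ, (∀ e, g (fun i => (a e i : ℝ)) = ev (a e) v) ∧
        Submodule.span ℝ ((fun e i => (a e i : ℝ)) '' {e | ev (a e) y = lo e ∨ ev (a e) y = hi e}) ≤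
          LinearMap.ker g := by
    set v : Fin n → ℝ := fun i => f (Pi.single i 1) with hv
    have hfv : ∀ u : Fin n → ℝ, f u = ∑ i, u i * v i := by
      intro u
      have h1 : u = ∑ i, u i • (Pi.single i (1 : ℝ) : Fin n → ℝ) := by
        ext j
        simp [Finset.sum_apply, Pi.single_apply]
      conv_lhs => rw [h1]
      rw [map_sum]
      exact sum_congr rfl fun i _ => by rw [map_smul, smul_eq_mul]
    have hfe : ∀ e, f (fun i => (a e i : ℝ)) = ev (a e) v := fun e => hfv _
    have hv0 : v ≠ 0 := by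
      intro h0
      apply hf0
      ext i
      simp only [LinearMap.comp_apply, LinearMap.zero_apply]
      have := congrFun h0 i
      simpa [hv] using this
    have hex : ∃ e, ev (a e) v ≠ 0 := by
      by_contra hcon
      push Not at hcon
      exact hv0 (hspan v hcon)
    have htight : ∀ e, (ev (a e) y = lo e ∨ ev (a e) y = hi e) → ev (a e) v = 0 := by
      intro e he
      rw [← hfe]
      exact hf (Submodule.subset_span ⟨e, he, rfl⟩)
    rcases le_total (l v) 0 with h | h
    · exact ⟨v, h, hex, htight, f, hfe, hf⟩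
    · refine ⟨-v, by rw [map_neg]; linarith, ?_, ?_, -f, ?_, ?_⟩
      · obtain ⟨e, he⟩ := hex
        exact ⟨e, by rw [ev_neg]; exact neg_ne_zero.2 he⟩
      · intro e he
        rw [ev_neg, htight e he, neg_zero]
      · intro e
        rw [ev_neg, ← hfe]; rfl
      · intro u hu
        have := hf hu
        rw [LinearMap.mem_ker] at this ⊢
        rw [LinearMap.neg_apply, this, neg_zero]
  obtain ⟨v, hlv, ⟨e0, he0⟩, htight, g, hg, hgker⟩ := key
  -- the step length
  set t : ι → ℝ := fun e => if 0 < ev (a e) v then (hi e - ev (a e) y) / ev (a e) v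
    else (lo e - ev (a e) y) / ev (a e) v with ht
  obtain ⟨e1, he1, hmin⟩ := Finset.exists_min_image (univ.filter fun e => ev (a e) v ≠ 0) t
    ⟨e0, by simp [he0]⟩
  have he1' : ev (a e1) v ≠ 0 := by simpa using he1
  have htpos : ∀ e, ev (a e) v ≠ 0 → 0 ≤ t e := by
    intro e he
    simp only [ht]
    split_ifs with h
    · exact div_nonneg (by linarith [(hy e).2]) h.le
    · have h' : ev (a e) v < 0 := lt_of_le_of_ne (not_lt.1 h) he
      exact div_nonneg_of_nonpos (by linarith [(hy e).1]) h'.le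
  have h1pos := htpos e1 he1'
  refine ⟨y + t e1 • v, fun e => ?_, ?_, ?_⟩
  · rw [ev_add, ev_smul]
    by_cases he : ev (a e) v = 0
    · rw [he, mul_zero, add_zero]; exact hy e
    · have hle := hmin e (by simp [he])
      rcases lt_or_gt_of_ne he with h | h
      · have h' : ¬ 0 < ev (a e) v := not_lt.2 h.le
        have h2 : t e * ev (a e) v = lo e - ev (a e) y := by
          simp only [ht, if_neg h']
          field_simp
        constructor
        · have : t e * ev (a e) v ≤ t e1 * ev (a e) v :=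
            mul_le_mul_of_nonpos_right hle h.le
          linarith
        · have : t e1 * ev (a e) v ≤ 0 := mul_nonpos_of_nonneg_of_nonpos h1pos h.le
          linarith [(hy e).2]
      · have h2 : t e * ev (a e) v = hi e - ev (a e) y := by
          simp only [ht, if_pos h]
          field_simp
        constructor
        · have : 0 ≤ t e1 * ev (a e) v := mul_nonneg h1pos h.le
          linarith [(hy e).1]
        · have : t e1 * ev (a e) v ≤ t e * ev (a e) v :=
            mul_le_mul_of_nonneg_right hle h.le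
          linarith
  · rw [map_add, map_smul, smul_eq_mul]
    have : t e1 * l v ≤ 0 := mul_nonpos_of_nonneg_of_nonpos h1pos hlv
    linarith
  · rw [lt_iff_le_and_ne]
    constructor
    · apply Submodule.span_mono
      rintro _ ⟨e, he, rfl⟩
      refine ⟨e, ?_, rfl⟩
      have : ev (a e) v = 0 := htight e he
      change ev (a e) (y + t e1 • v) = _ ∨ ev (a e) (y + t e1 • v) = _
      rw [ev_add, ev_smul, this, mul_zero, add_zero]
      exact he
    · intro heq
      have hmem : (fun i => (a e1 i : ℝ)) ∈ Submodule.span ℝ ((fun e i => (a e i : ℝ)) ''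
          {e | ev (a e) (y + t e1 • v) = lo e ∨ ev (a e) (y + t e1 • v) = hi e}) := by
        apply Submodule.subset_span
        refine ⟨e1, ?_, rfl⟩
        change ev (a e1) (y + t e1 • v) = _ ∨ ev (a e1) (y + t e1 • v) = _
        rw [ev_add, ev_smul]
        rcases lt_or_gt_of_ne he1' with h | h
        · left
          have h' : ¬ 0 < ev (a e1) v := not_lt.2 h.le
          simp only [ht, if_neg h']
          field_simp
          ring
        · right
          simp only [ht, if_pos h]
          field_simp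
          ring
      rw [← heq] at hmem
      have := hgker hmem
      rw [LinearMap.mem_ker, hg] at this
      exact he1' this

/-- **Rounding.** A point of the polytope `lo_e ≤ a_e(y) ≤ hi_e` can be moved to a vertex without
increasing `l`; at a vertex `n` independent forms have integral values. -/
theorem exists_vertex {ι : Type} [Fintype ι] (a : ι → Fin n → ℤ)
    (hspan : ∀ x : Fin n → ℝ, (∀ e, ev (a e) x = 0) → x = 0)
    (lo hi : ι → ℤ) (l : (Fin n → ℝ) →ₗ[ℝ] ℝ) (x : Fin n → ℝ)
    (hx : ∀ e, (lo e : ℝ) ≤ ev (a e) x ∧ ev (a e) x ≤ hi e) :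
    ∃ y : Fin n → ℝ, (∀ e, (lo e : ℝ) ≤ ev (a e) y ∧ ev (a e) y ≤ hi e) ∧ l y ≤ l x ∧
      ∃ f : Fin n → ι, (Matrix.of fun i => a (f i)).det ≠ 0 ∧ ∀ i, ∃ k : ℤ, ev (a (f i)) y = k := by
  classical
  -- move to a point whose tight forms span
  have main : ∀ d : ℕ, ∀ y : Fin n → ℝ, (∀ e, (lo e : ℝ) ≤ ev (a e) y ∧ ev (a e) y ≤ hi e) →
      l y ≤ l x → n - Module.finrank ℝ (Submodule.span ℝ ((fun e i => (a e i : ℝ)) ''
        {e | ev (a e) y = lo e ∨ ev (a e) y = hi e})) = d →
      ∃ z : Fin n → ℝ, (∀ e, (lo e : ℝ) ≤ ev (a e) z ∧ ev (a e) z ≤ hi e) ∧ l z ≤ l x ∧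
        Submodule.span ℝ ((fun e i => (a e i : ℝ)) ''
          {e | ev (a e) z = lo e ∨ ev (a e) z = hi e}) = ⊤ := by
    intro d
    induction d using Nat.strong_induction_on with
    | _ d ih =>
      intro y hy hly hd
      by_cases hS : Submodule.span ℝ ((fun e i => (a e i : ℝ)) ''
          {e | ev (a e) y = lo e ∨ ev (a e) y = hi e}) = ⊤
      · exact ⟨y, hy, hly, hS⟩
      · obtain ⟨z, hz, hlz, hlt⟩ := step a hspan lo hi l y hy (lt_top_iff_ne_top.2 hS)
        have h1 := Submodule.finrank_lt_finrank_of_lt hlt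
        have h2 := Submodule.finrank_le (Submodule.span ℝ ((fun e i => (a e i : ℝ)) ''
          {e | ev (a e) z = lo e ∨ ev (a e) z = hi e}))
        rw [Module.finrank_fin_fun] at h2
        exact ih _ (by omega) z hz (hlz.trans hly) rfl
  obtain ⟨y, hy, hly, htop⟩ := main _ x hx le_rfl rfl
  refine ⟨y, hy, hly, ?_⟩
  obtain ⟨κ, c, hc, hsp, hli⟩ := exists_linearIndependent' ℝ
    (fun e : {e | ev (a e) y = lo e ∨ ev (a e) y = hi e} => (fun i => (a e.1 i : ℝ) : Fin n → ℝ))
  have hrange : Set.range (fun e : {e | ev (a e) y = lo e ∨ ev (a e) y = hi e} =>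
      (fun i => (a e.1 i : ℝ) : Fin n → ℝ)) = (fun e i => (a e i : ℝ)) ''
        {e | ev (a e) y = lo e ∨ ev (a e) y = hi e} := by
    ext u
    simp only [Set.mem_range, Set.mem_image, Subtype.exists]
    constructor
    · rintro ⟨e, he, rfl⟩; exact ⟨e, he, rfl⟩
    · rintro ⟨e, he, rfl⟩; exact ⟨e, he, rfl⟩
  rw [hrange, htop] at hsp
  have hfin : Finite κ := hli.finite
  have : Fintype κ := Fintype.ofFinite κ
  let B := Module.Basis.mk hli (by rw [hsp])
  have hcard : Fintype.card κ = n := by
    have := Module.finrank_eq_card_basis B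
    rw [Module.finrank_fin_fun] at this
    exact this.symm
  let φ : Fin n ≃ κ := (Fintype.equivFinOfCardEq hcard).symm
  refine ⟨fun i => (c (φ i)).1, ?_, fun i => ?_⟩
  · intro h0
    have h1 : ((Matrix.of fun i => a (c (φ i)).1).map (Int.cast : ℤ → ℝ)).det = 0 := by
      have := (Int.castRingHom ℝ).map_det (Matrix.of fun i => a (c (φ i)).1)
      rw [h0, map_zero] at this
      rw [← this.symm]
      rfl
    have h2 : LinearIndependent ℝ ((Matrix.of fun i => a (c (φ i)).1).map (Int.cast : ℤ → ℝ)).row := by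
      have := hli.comp φ φ.injective
      exact this
    rw [Matrix.linearIndependent_rows_iff_isUnit, Matrix.isUnit_iff_isUnit_det, h1] at h2
    exact not_isUnit_zero h2
  · rcases (c (φ i)).2 with h | h
    · exact ⟨_, h⟩
    · exact ⟨_, h⟩

end Pool.Agent.H97.ZL
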